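import Pool.Agent.H96.RT.Defs

/-!
# [H96 RT CN2] Coincidences are rare

Statement to prove (keep it): `cn2`.

PROOF. Each of the seven conditions determines one of the coordinates of `t` by the three others, with the remaining three
in a box of at most `n^6` elements:
`a = b`: `b' = a'` (`M ≥ 1`); `a = c`: `b = k^2 - 2a` determines `b'`; `b = c`: `a = k^2 - 2b` determines `a'`;
`k^2 = 3a`: determines `a'`; `k^2 = 3b`: determines `b'`; `k^2 = 3c`: `3b = 2k^2 - 3a`, determines `b'`;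
`k c + l = 0`: determines `l'` (at most `n^5` parameters). So the map forgetting that coordinate is injective on the set
(`Finset.card_le_card_of_injOn` into a product of three intervals): at most `n^6` parameters for each condition.
-/

set_option autoImplicit false

namespace Pool.Agent.H96.RT

open Finset

private theorem cn2_det4 (n : ℕ) (p : ℕ × ℕ × ℕ × ℕ → Prop) [DecidablePred p]
    (h : ∀ t s, p t → p s → t.1 = s.1 → t.2.1 = s.2.1 → t.2.2.1 = s.2.2.1 → t.2.2.2 = s.2.2.2) :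
    ((Bx n).filter p).card ≤ n ^ 6 := by
  have hc : (Icc 1 n ×ˢ Icc 1 (n ^ 3) ×ˢ Icc 1 (n ^ 2)).card = n ^ 6 := by
    simp only [Finset.card_product, Nat.card_Icc, Nat.add_sub_cancel]
    ring
  rw [← hc]
  apply Finset.card_le_card_of_injOn (fun t => (t.1, t.2.1, t.2.2.1))
  · intro t ht
    rw [Finset.mem_coe, Finset.mem_filter, mem_Bx] at ht
    simp only [Finset.mem_coe, Finset.mem_product, Finset.mem_Icc]
    exact ⟨ht.1.1, ht.1.2.1, ht.1.2.2.1⟩
  · intro t ht s hs hts
    rw [Finset.mem_coe, Finset.mem_filter] at ht hs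
    simp only [Prod.mk.injEq] at hts
    have := h t s ht.2 hs.2 hts.1 hts.2.1 hts.2.2
    ext
    · exact hts.1
    · exact hts.2.1
    · exact hts.2.2
    · exact this

private theorem cn2_det3 (n : ℕ) (p : ℕ × ℕ × ℕ × ℕ → Prop) [DecidablePred p]
    (h : ∀ t s, p t → p s → t.1 = s.1 → t.2.1 = s.2.1 → t.2.2.2 = s.2.2.2 → t.2.2.1 = s.2.2.1) :
    ((Bx n).filter p).card ≤ n ^ 6 := by
  have hc : (Icc 1 n ×ˢ Icc 1 (n ^ 3) ×ˢ Icc 1 (n ^ 2)).card = n ^ 6 := by
    simp only [Finset.card_product, Nat.card_Icc, Nat.add_sub_cancel]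
    ring
  rw [← hc]
  apply Finset.card_le_card_of_injOn (fun t => (t.1, t.2.1, t.2.2.2))
  · intro t ht
    rw [Finset.mem_coe, Finset.mem_filter, mem_Bx] at ht
    simp only [Finset.mem_coe, Finset.mem_product, Finset.mem_Icc]
    exact ⟨ht.1.1, ht.1.2.1, ht.1.2.2.2⟩
  · intro t ht s hs hts
    rw [Finset.mem_coe, Finset.mem_filter] at ht hs
    simp only [Prod.mk.injEq] at hts
    have := h t s ht.2 hs.2 hts.1 hts.2.1 hts.2.2
    ext
    · exact hts.1
    · exact hts.2.1
    · exact this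
    · exact hts.2.2

private theorem cn2_det2 (n : ℕ) (hn : 1 ≤ n) (p : ℕ × ℕ × ℕ × ℕ → Prop) [DecidablePred p]
    (h : ∀ t s, p t → p s → t.1 = s.1 → t.2.2.1 = s.2.2.1 → t.2.2.2 = s.2.2.2 → t.2.1 = s.2.1) :
    ((Bx n).filter p).card ≤ n ^ 6 := by
  have hc : (Icc 1 n ×ˢ Icc 1 (n ^ 2) ×ˢ Icc 1 (n ^ 2)).card = n ^ 5 := by
    simp only [Finset.card_product, Nat.card_Icc, Nat.add_sub_cancel]
    ring
  refine le_trans ?_ (Nat.pow_le_pow_right hn (show 5 ≤ 6 by norm_num))
  rw [← hc]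
  apply Finset.card_le_card_of_injOn (fun t => (t.1, t.2.2.1, t.2.2.2))
  · intro t ht
    rw [Finset.mem_coe, Finset.mem_filter, mem_Bx] at ht
    simp only [Finset.mem_coe, Finset.mem_product, Finset.mem_Icc]
    exact ⟨ht.1.1, ht.1.2.2.1, ht.1.2.2.2⟩
  · intro t ht s hs hts
    rw [Finset.mem_coe, Finset.mem_filter] at ht hs
    simp only [Prod.mk.injEq] at hts
    have := h t s ht.2 hs.2 hts.1 hts.2.1 hts.2.2
    ext
    · exact hts.1
    · exact this
    · exact hts.2.1
    · exact hts.2.2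

theorem cn2 (M n : ℕ) (hM : 1 ≤ M) (hn : 1 ≤ n) :
    ((Bx n).filter (fun t => pa M t = pb M t ∨ pa M t = pc M t ∨ pb M t = pc M t ∨
      pk M t ^ 2 = 3 * pa M t ∨ pk M t ^ 2 = 3 * pb M t ∨ pk M t ^ 2 = 3 * pc M t ∨
      pk M t * pc M t + pl M t = 0)).card ≤ 7 * n ^ 6 := by
  have hM0 : (M : ℤ) ≠ 0 := by
    have : (1 : ℤ) ≤ M := by exact_mod_cast hM
    omega
  have hcan : ∀ x y : ℕ, (M : ℤ) * x = M * y → x = y := by
    intro x y hxy
    exact_mod_cast mul_left_cancel₀ hM0 hxy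
  have c1 := cn2_det4 n (fun t => pa M t = pb M t) (by
    intro t s h1 h2 e1 e2 e3
    apply hcan
    simp only [pa, pb] at h1 h2
    rw [← h1, ← h2, e3])
  have c2 := cn2_det4 n (fun t => pa M t = pc M t) (by
    intro t s h1 h2 e1 e2 e3
    apply hcan
    simp only [pa, pb, pc, pk, cc] at h1 h2
    rw [e1, e3] at h1
    linarith)
  have c3 := cn2_det3 n (fun t => pb M t = pc M t) (by
    intro t s h1 h2 e1 e2 e3
    apply hcan
    simp only [pa, pb, pc, pk, cc] at h1 h2
    rw [e1, e3] at h1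
    linarith)
  have c4 := cn2_det3 n (fun t => pk M t ^ 2 = 3 * pa M t) (by
    intro t s h1 h2 e1 e2 e3
    apply hcan
    simp only [pa, pk] at h1 h2
    rw [e1] at h1
    linarith)
  have c5 := cn2_det4 n (fun t => pk M t ^ 2 = 3 * pb M t) (by
    intro t s h1 h2 e1 e2 e3
    apply hcan
    simp only [pb, pk] at h1 h2
    rw [e1] at h1
    linarith)
  have c6 := cn2_det4 n (fun t => pk M t ^ 2 = 3 * pc M t) (by
    intro t s h1 h2 e1 e2 e3
    apply hcan
    simp only [pa, pb, pc, pk, cc] at h1 h2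
    rw [e1, e3] at h1
    linarith)
  have c7 := cn2_det2 n hn (fun t => pk M t * pc M t + pl M t = 0) (by
    intro t s h1 h2 e1 e2 e3
    apply hcan
    simp only [pa, pb, pc, pk, pl, cc] at h1 h2
    rw [e1, e2, e3] at h1
    linarith)
  have hsub : (Bx n).filter (fun t => pa M t = pb M t ∨ pa M t = pc M t ∨ pb M t = pc M t ∨
      pk M t ^ 2 = 3 * pa M t ∨ pk M t ^ 2 = 3 * pb M t ∨ pk M t ^ 2 = 3 * pc M t ∨
      pk M t * pc M t + pl M t = 0) ⊆
      (Bx n).filter (fun t => pa M t = pb M t) ∪ ((Bx n).filter (fun t => pa M t = pc M t) ∪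
      ((Bx n).filter (fun t => pb M t = pc M t) ∪ ((Bx n).filter (fun t => pk M t ^ 2 = 3 * pa M t) ∪
      ((Bx n).filter (fun t => pk M t ^ 2 = 3 * pb M t) ∪
      ((Bx n).filter (fun t => pk M t ^ 2 = 3 * pc M t) ∪
      (Bx n).filter (fun t => pk M t * pc M t + pl M t = 0)))))) := by
    intro t ht
    obtain ⟨ht, h⟩ := Finset.mem_filter.1 ht
    simp only [Finset.mem_union, Finset.mem_filter]
    tauto
  have u1 := Finset.card_le_card hsub
  refine le_trans u1 ?_
  refine le_trans (Finset.card_union_le _ _) ?_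
  refine le_trans (Nat.add_le_add c1 (le_trans (Finset.card_union_le _ _) (Nat.add_le_add c2
    (le_trans (Finset.card_union_le _ _) (Nat.add_le_add c3 (le_trans (Finset.card_union_le _ _)
    (Nat.add_le_add c4 (le_trans (Finset.card_union_le _ _) (Nat.add_le_add c5
    (le_trans (Finset.card_union_le _ _) (Nat.add_le_add c6 c7))))))))))) ?_
  omega

end Pool.Agent.H96.RT
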