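import Pool.Agent.H96.RT.Defs

/-!
# [H96 RT CN3] Few parameters for which one of the three points is the double of one of them

Statements to prove (keep them): `two_l`, `cn3`.

* `two_l`: `A = 2 k l + α` with `α = ab + (a+b)c`. The equation is
  `(2 k l + β)^2 = 4 (l + k w)^2 (u + 2w)`, `β = 3 w^2 + α`: a quadratic equation for `l` with leading coefficient
  `4 (k^2 - u - 2w) ≠ 0`: at most two solutions (three different solutions `l1, l2, l3` of `p l^2 + q l + r = 0` give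
  `p (l1 + l2) + q = 0 = p (l1 + l3) + q`, so `p = 0`; or `Polynomial.card_roots`).
* `cn3`: for `u, w ∈ {a, b, c}` different, `u + 2w - k^2 = w - v'` where `v'` is the third one, as `a + b + c = k^2`; for
  `u = w`: `k^2 ≠ 3w`. So `two_l` applies to each of the nine pairs `(u,w)` (given as functions of `(k',a',b')`): for given
  `(k',a',b')` at most 18 values of `l'` (`l' ↦ 1 + M l'` is injective); total at most `18 n^5`.
-/

set_option autoImplicit false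

namespace Pool.Agent.H96.RT

open Finset

theorem two_l (k a b u w : ℤ) (h : k ^ 2 ≠ u + 2 * w) (S : Finset ℤ) :
    (S.filter (fun l => (3 * w ^ 2 + AA k l a b) ^ 2 = 4 * (k * w + l) ^ 2 * (u + 2 * w))).card ≤
      2 := by
  by_contra hcon
  push Not at hcon
  obtain ⟨x, y, z, hx, hy, hz, hxy, hxz, hyz⟩ := Finset.two_lt_card_iff.1 hcon
  have ex := (Finset.mem_filter.1 hx).2
  have ey := (Finset.mem_filter.1 hy).2
  have ez := (Finset.mem_filter.1 hz).2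
  simp only [AA] at ex ey ez
  set α : ℤ := a * b + (a + b) * cc k a b with hα
  set β : ℤ := 3 * w ^ 2 + α with hβ
  have fx : 4 * (k ^ 2 - (u + 2 * w)) * x ^ 2 + (4 * k * β - 8 * k * w * (u + 2 * w)) * x +
      (β ^ 2 - 4 * k ^ 2 * w ^ 2 * (u + 2 * w)) = 0 := by rw [hβ]; linear_combination ex
  have fy : 4 * (k ^ 2 - (u + 2 * w)) * y ^ 2 + (4 * k * β - 8 * k * w * (u + 2 * w)) * y +
      (β ^ 2 - 4 * k ^ 2 * w ^ 2 * (u + 2 * w)) = 0 := by rw [hβ]; linear_combination ey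
  have fz : 4 * (k ^ 2 - (u + 2 * w)) * z ^ 2 + (4 * k * β - 8 * k * w * (u + 2 * w)) * z +
      (β ^ 2 - 4 * k ^ 2 * w ^ 2 * (u + 2 * w)) = 0 := by rw [hβ]; linear_combination ez
  have gxy : (x - y) * (4 * (k ^ 2 - (u + 2 * w)) * (x + y) +
      (4 * k * β - 8 * k * w * (u + 2 * w))) = 0 := by linear_combination fx - fy
  have gxz : (x - z) * (4 * (k ^ 2 - (u + 2 * w)) * (x + z) +
      (4 * k * β - 8 * k * w * (u + 2 * w))) = 0 := by linear_combination fx - fz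
  have g1 := (mul_eq_zero.1 gxy).resolve_left (sub_ne_zero.2 hxy)
  have g2 := (mul_eq_zero.1 gxz).resolve_left (sub_ne_zero.2 hxz)
  have g3 : (4 * (k ^ 2 - (u + 2 * w))) * (y - z) = 0 := by linear_combination g1 - g2
  rcases mul_eq_zero.1 g3 with h1 | h1
  · apply h
    omega
  · exact hyz (sub_eq_zero.1 h1)

/-- the abscissas as functions of three coordinates -/
private def cn3_f (M : ℕ) (j : Fin 3) (q : ℕ × ℕ × ℕ) : ℤ :=
  if j = 0 then M * q.2.1 else if j = 1 then M * q.2.2 else cc (M * q.1) (M * q.2.1) (M * q.2.2)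

open Classical in
private theorem cn3_fibre (M n : ℕ) (hM : 1 ≤ M) (i : Fin 3) (j : Fin 3) (q : ℕ × ℕ × ℕ)
    (h : ((M : ℤ) * q.1) ^ 2 ≠ cn3_f M i q + 2 * cn3_f M j q) :
    ((Bx n).filter (fun t => (t.1 = q.1 ∧ t.2.2.1 = q.2.1 ∧ t.2.2.2 = q.2.2) ∧
      (3 * (cn3_f M j q) ^ 2 + tA M t) ^ 2 = 4 * (pk M t * cn3_f M j q + pl M t) ^ 2 *
        (cn3_f M i q + 2 * cn3_f M j q))).card ≤ 2 := by
  refine le_trans ?_ (two_l (M * q.1) (M * q.2.1) (M * q.2.2) (cn3_f M i q) (cn3_f M j q) h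
    ((Icc 1 (n ^ 3)).image (fun l' : ℕ => (1 + M * l' : ℤ))))
  apply Finset.card_le_card_of_injOn (fun t => pl M t)
  · intro t ht
    rw [Finset.mem_coe, Finset.mem_filter] at ht
    obtain ⟨ht, ⟨h1, h2, h3⟩, hy⟩ := ht
    rw [Finset.mem_coe, Finset.mem_filter, Finset.mem_image]
    refine ⟨⟨t.2.1, ?_, ?_⟩, ?_⟩
    · rw [mem_Bx] at ht
      exact Finset.mem_Icc.2 ht.2.1
    · unfold pl; rfl
    · rw [← h1, ← h2, ← h3]
      exact hy
  · intro t ht s hs hts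
    rw [Finset.mem_coe, Finset.mem_filter] at ht hs
    obtain ⟨-, ⟨h1, h2, h3⟩, -⟩ := ht
    obtain ⟨-, ⟨g1, g2, g3⟩, -⟩ := hs
    have hM0 : (M : ℤ) ≠ 0 := by
      have : (M : ℤ) ≥ 1 := by exact_mod_cast hM
      omega
    have hl : t.2.1 = s.2.1 := by
      simp only [pl] at hts
      have : (M : ℤ) * t.2.1 = M * s.2.1 := by linarith
      exact_mod_cast mul_left_cancel₀ hM0 this
    ext
    · rw [h1, g1]
    · exact hl
    · rw [h2, g2]
    · rw [h3, g3]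

open Classical in
theorem cn3 (M n : ℕ) (hM : 1 ≤ M) (hn : 1 ≤ n) :
    ((Bx n).filter (fun t => pa M t ≠ pb M t ∧ pa M t ≠ pc M t ∧ pb M t ≠ pc M t ∧
      pk M t ^ 2 ≠ 3 * pa M t ∧ pk M t ^ 2 ≠ 3 * pb M t ∧ pk M t ^ 2 ≠ 3 * pc M t ∧
      ∃ u w : ℤ, (u = pa M t ∨ u = pb M t ∨ u = pc M t) ∧ (w = pa M t ∨ w = pb M t ∨ w = pc M t) ∧
        (3 * w ^ 2 + tA M t) ^ 2 = 4 * (pk M t * w + pl M t) ^ 2 * (u + 2 * w))).card ≤
      18 * n ^ 5 := by
  set I : Finset (Fin 3 × Fin 3 × ℕ × ℕ × ℕ) :=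
    Finset.univ ×ˢ Finset.univ ×ˢ Icc 1 n ×ˢ Icc 1 (n ^ 2) ×ˢ Icc 1 (n ^ 2) with hI
  set F : Fin 3 × Fin 3 × ℕ × ℕ × ℕ → Finset (ℕ × ℕ × ℕ × ℕ) := fun r =>
    if ((M : ℤ) * r.2.2.1) ^ 2 ≠ cn3_f M r.1 r.2.2 + 2 * cn3_f M r.2.1 r.2.2 then
    (Bx n).filter (fun t => (t.1 = r.2.2.1 ∧ t.2.2.1 = r.2.2.2.1 ∧ t.2.2.2 = r.2.2.2.2) ∧
      (3 * (cn3_f M r.2.1 r.2.2) ^ 2 + tA M t) ^ 2 =
        4 * (pk M t * cn3_f M r.2.1 r.2.2 + pl M t) ^ 2 *
        (cn3_f M r.1 r.2.2 + 2 * cn3_f M r.2.1 r.2.2)) else ∅ with hF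
  have hIc : I.card = 9 * n ^ 5 := by
    rw [hI]
    simp only [Finset.card_product, Nat.card_Icc, Nat.add_sub_cancel, Finset.card_univ,
      Fintype.card_fin]
    ring
  have hFc : ∀ r ∈ I, (F r).card ≤ 2 := by
    intro r _
    rw [hF]
    simp only
    split_ifs with h
    · exact cn3_fibre M n hM r.1 r.2.1 r.2.2 h
    · simp
  have hsel : ∀ t : ℕ × ℕ × ℕ × ℕ, ∀ u : ℤ, (u = pa M t ∨ u = pb M t ∨ u = pc M t) →
      ∃ i : Fin 3, cn3_f M i (t.1, t.2.2.1, t.2.2.2) = u := by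
    intro t u hu
    rcases hu with h | h | h
    · exact ⟨0, by rw [h]; simp [cn3_f, pa]⟩
    · exact ⟨1, by rw [h]; simp [cn3_f, pb]⟩
    · exact ⟨2, by rw [h]; simp [cn3_f, pc, pk, pa, pb]⟩
  have hsub : ((Bx n).filter (fun t => pa M t ≠ pb M t ∧ pa M t ≠ pc M t ∧ pb M t ≠ pc M t ∧
      pk M t ^ 2 ≠ 3 * pa M t ∧ pk M t ^ 2 ≠ 3 * pb M t ∧ pk M t ^ 2 ≠ 3 * pc M t ∧
      ∃ u w : ℤ, (u = pa M t ∨ u = pb M t ∨ u = pc M t) ∧ (w = pa M t ∨ w = pb M t ∨ w = pc M t) ∧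
        (3 * w ^ 2 + tA M t) ^ 2 = 4 * (pk M t * w + pl M t) ^ 2 * (u + 2 * w))) ⊆
      I.biUnion F := by
    intro t ht
    obtain ⟨ht, h1, h2, h3, h4, h5, h6, u, w, hu, hw, he⟩ := Finset.mem_filter.1 ht
    obtain ⟨i, hi⟩ := hsel t u hu
    obtain ⟨j, hj⟩ := hsel t w hw
    rw [Finset.mem_biUnion]
    refine ⟨(i, j, t.1, t.2.2.1, t.2.2.2), ?_, ?_⟩
    · rw [mem_Bx] at ht
      simp only [hI, Finset.mem_product, Finset.mem_univ, Finset.mem_Icc, true_and]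
      exact ⟨ht.1, ht.2.2.1, ht.2.2.2⟩
    · have hne : ((M : ℤ) * t.1) ^ 2 ≠ u + 2 * w := by
        have hsum : pk M t ^ 2 = pa M t + pb M t + pc M t := by
          unfold pc cc; ring
        have e : (M : ℤ) * t.1 = pk M t := rfl
        rw [e]
        intro hE
        rcases hu with hu | hu | hu <;> rcases hw with hw | hw | hw <;> rw [hu, hw] at hE
        · exact h4 (by linarith)
        · exact h3 (by linarith)
        · exact h3 (by linarith)
        · exact h2 (by linarith)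
        · exact h5 (by linarith)
        · exact h2 (by linarith)
        · exact h1 (by linarith)
        · exact h1 (by linarith)
        · exact h6 (by linarith)
      rw [hF]
      simp only
      rw [hi, hj, if_pos hne]
      exact Finset.mem_filter.2 ⟨ht, ⟨rfl, rfl, rfl⟩, he⟩
  calc _ ≤ (I.biUnion F).card := Finset.card_le_card hsub
    _ ≤ ∑ r ∈ I, (F r).card := Finset.card_biUnion_le
    _ ≤ ∑ r ∈ I, 2 := Finset.sum_le_sum hFc
    _ = 18 * n ^ 5 := by rw [Finset.sum_const, smul_eq_mul, hIc]; ring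

end Pool.Agent.H96.RT
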