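import Pool.Agent.H96.RT.Cn4a

/-!
# [H96 RT CN4] Few parameters with `p ∣ A` and `p ∣ B` for a prime `p > 200`

Statement to prove (keep it): `cn4`.

PROOF. The set is contained in the union over the primes `p ∈ Ioc 200 (2 M n)`, `p ∤ M`, of the sets of `cn4p`. As `p ≤ 2 M n` and
`2 M ≤ n`: `n^2/p + 1 ≤ 2 n^2/p` in the reals (`n^2/p ≥ n/(2M) ≥ 1`, and the natural number quotient is at most the real one), so
each has at most `n^4 (6 n^2/p)^2 = 36 n^8/p^2` elements, and `Σ_{p > 200} 1/p^2 ≤ Σ_{m > 200} 1/m^2 ≤ 1/200`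
(`1/m^2 ≤ 1/(m-1) - 1/m`, telescoping; e.g. Mathlib `sum_Ioc_inv_sq_le_sub` or `sum_Ioo_inv_sq_le`). Total
`≤ (36/200) n^8 ≤ n^8/5`.
-/

set_option autoImplicit false

namespace Pool.Agent.H96.RT

open Finset

private theorem cn4_sum (a b : ℕ) (ha : 1 ≤ a) (hab : a ≤ b) :
    ∑ p ∈ Ioc a b, (1 : ℝ) / (p : ℝ) ^ 2 ≤ 1 / (a : ℝ) := by
  have h : ∑ p ∈ Ioc a b, (1 : ℝ) / (p : ℝ) ^ 2 ≤ 1 / (a : ℝ) - 1 / (b : ℝ) := by
    induction b, hab using Nat.le_induction with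
    | base => simp
    | succ b hb ih =>
      rw [← Finset.insert_Ioc_right_eq_Ioc_add_one hb, Finset.sum_insert (by simp)]
      have hb0 : (0 : ℝ) < b := by
        have : 1 ≤ b := le_trans ha hb
        exact_mod_cast this
      have h1 : (1 : ℝ) / ((b + 1 : ℕ) : ℝ) ^ 2 ≤ 1 / (b : ℝ) - 1 / ((b + 1 : ℕ) : ℝ) := by
        push_cast
        rw [div_sub_div _ _ hb0.ne' (by positivity), div_le_div_iff₀ (by positivity) (by positivity)]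
        nlinarith
      linarith
  have hb : (0 : ℝ) ≤ 1 / (b : ℝ) := by positivity
  linarith

open Classical in
theorem cn4 (M n : ℕ) (hM : 1 ≤ M) (hn : 2 * M ≤ n) :
    (((Bx n).filter (fun t => ∃ p : ℕ, p.Prime ∧ 200 < p ∧ p ≤ 2 * M * n ∧ ¬ p ∣ M ∧
      (p : ℤ) ∣ tA M t ∧ (p : ℤ) ∣ tB M t)).card : ℝ) ≤ (n : ℝ) ^ 8 / 5 := by
  obtain ⟨I, hI⟩ : ∃ I : Finset ℕ, I = (Ioc 200 (2 * M * n)).filter (fun p => p.Prime ∧ ¬ p ∣ M) :=
    ⟨_, rfl⟩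
  have hnpos : 0 < n := by omega
  have hnr : (0 : ℝ) < n := by exact_mod_cast hnpos
  have hsub : (Bx n).filter (fun t => ∃ p : ℕ, p.Prime ∧ 200 < p ∧ p ≤ 2 * M * n ∧ ¬ p ∣ M ∧
      (p : ℤ) ∣ tA M t ∧ (p : ℤ) ∣ tB M t) ⊆
      I.biUnion (fun p => (Bx n).filter (fun t => (p : ℤ) ∣ tA M t ∧ (p : ℤ) ∣ tB M t)) := by
    intro t ht
    have ht0 := (Finset.mem_filter.1 ht).1
    have hex : ∃ p : ℕ, p.Prime ∧ 200 < p ∧ p ≤ 2 * M * n ∧ ¬ p ∣ M ∧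
      (p : ℤ) ∣ tA M t ∧ (p : ℤ) ∣ tB M t := (Finset.mem_filter.1 ht).2
    clear ht
    obtain ⟨p, h1, h2, h3, h4, h5⟩ := hex
    have hp : p ∈ I := by
      rw [hI, Finset.mem_filter, Finset.mem_Ioc]
      exact ⟨⟨h2, h3⟩, h1, h4⟩
    rw [Finset.mem_biUnion]
    exact ⟨p, hp, Finset.mem_filter.2 ⟨ht0, h5⟩⟩
  have hone : ∀ p ∈ I, (((Bx n).filter (fun t => (p : ℤ) ∣ tA M t ∧ (p : ℤ) ∣ tB M t)).card : ℝ) ≤
      36 * (n : ℝ) ^ 8 * (1 / (p : ℝ) ^ 2) := by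
    intro p hp
    rw [hI, Finset.mem_filter, Finset.mem_Ioc] at hp
    obtain ⟨hp1, hp2, hp3⟩ := hp
    have hpr : (0 : ℝ) < p := by
      have : 0 < p := by omega
      exact_mod_cast this
    have h1 := cn4p p hp2 M hp3 n
    have h2 : (((Bx n).filter (fun t => (p : ℤ) ∣ tA M t ∧ (p : ℤ) ∣ tB M t)).card : ℝ) ≤
        (n : ℝ) * (n : ℝ) ^ 3 * (3 * (((n ^ 2 / p : ℕ) : ℝ) + 1)) ^ 2 := by
      exact_mod_cast h1
    have h3 : (((n ^ 2 / p : ℕ) : ℝ)) ≤ (n : ℝ) ^ 2 / p := by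
      have := @Nat.cast_div_le ℝ _ _ _ (n ^ 2) p
      push_cast at this
      exact this
    have h4 : (1 : ℝ) ≤ (n : ℝ) ^ 2 / p := by
      rw [le_div_iff₀ hpr, one_mul]
      have h5 : (p : ℝ) ≤ 2 * M * n := by exact_mod_cast hp1.2
      have h6 : (2 * M : ℝ) ≤ n := by exact_mod_cast hn
      nlinarith
    have h7 : 3 * (((n ^ 2 / p : ℕ) : ℝ) + 1) ≤ 6 * ((n : ℝ) ^ 2 / p) := by linarith
    calc _ ≤ _ := h2
      _ ≤ (n : ℝ) * (n : ℝ) ^ 3 * (6 * ((n : ℝ) ^ 2 / p)) ^ 2 := by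
        gcongr
      _ = _ := by
        field_simp
        ring
  have hIsub : ∑ p ∈ I, (1 : ℝ) / (p : ℝ) ^ 2 ≤ 1 / 200 := by
    by_cases h : 200 ≤ 2 * M * n
    · rw [hI]
      calc _ ≤ ∑ p ∈ Ioc 200 (2 * M * n), (1 : ℝ) / (p : ℝ) ^ 2 :=
            Finset.sum_le_sum_of_subset_of_nonneg (Finset.filter_subset _ _)
              (fun _ _ _ => by positivity)
        _ ≤ _ := by
            have := cn4_sum 200 (2 * M * n) (by norm_num) h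
            norm_num at this ⊢
            exact this
    · have : I = ∅ := by
        rw [hI, Finset.Ioc_eq_empty (by omega), Finset.filter_empty]
      rw [this, Finset.sum_empty]
      norm_num
  calc _ ≤ ((I.biUnion (fun p => (Bx n).filter (fun t => (p : ℤ) ∣ tA M t ∧ (p : ℤ) ∣ tB M t))).card : ℝ) := by
        exact_mod_cast Finset.card_le_card hsub
    _ ≤ ((∑ p ∈ I, ((Bx n).filter (fun t => (p : ℤ) ∣ tA M t ∧ (p : ℤ) ∣ tB M t)).card : ℕ) : ℝ) := by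
        exact_mod_cast Finset.card_biUnion_le
    _ = ∑ p ∈ I, (((Bx n).filter (fun t => (p : ℤ) ∣ tA M t ∧ (p : ℤ) ∣ tB M t)).card : ℝ) := by
        push_cast; rfl
    _ ≤ ∑ p ∈ I, 36 * (n : ℝ) ^ 8 * (1 / (p : ℝ) ^ 2) := Finset.sum_le_sum hone
    _ = 36 * (n : ℝ) ^ 8 * ∑ p ∈ I, (1 : ℝ) / (p : ℝ) ^ 2 := by rw [Finset.mul_sum]
    _ ≤ 36 * (n : ℝ) ^ 8 * (1 / 200) := by
        apply mul_le_mul_of_nonneg_left hIsub (by positivity)
    _ ≤ _ := by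
        have : (0 : ℝ) ≤ (n : ℝ) ^ 8 := by positivity
        linarith

end Pool.Agent.H96.RT
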