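import Pool.Agent.H96.RT.Siz

/-!
# [H96 RT MIN] Minimality

Statement to prove (keep it): `mnl_of`.

PROOF. Suppose `q` is a prime, `q^4 ∣ A`, `q^6 ∣ B`. (i) `q ∤ M`: otherwise `q` divides `k`, `a`, `b`, `l - 1`, so
`B = l^2 - a b c ≡ 1 mod q`, but `q ∣ B`. So `q > 200` by `h200`. (ii) `q ≤ 2 M n`: if `A ≠ 0` then `q^4 ≤ |A| ≤ 11 M^3 n^4 <
(2 M n)^4`... (`11 M^3 ≤ 16 M^4`), so `q ≤ 2 M n`. If `A = 0` then `B ≠ 0` (`hAB`) and `q^6 ≤ |B| ≤ 7 M^4 n^6 ≤ (2 M n)^6`.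
So `q` contradicts `hno`.
-/

set_option autoImplicit false

namespace Pool.Agent.H96.RT

open Finset

theorem mnl_of {M n : ℕ} (hM : 1 ≤ M) (hn : 1 ≤ n) (h200 : ∀ q : ℕ, q.Prime → q ≤ 200 → q ∣ M)
    {t : ℕ × ℕ × ℕ × ℕ} (ht : t ∈ Bx n) (hAB : ¬ (tA M t = 0 ∧ tB M t = 0))
    (hno : ¬ ∃ p : ℕ, p.Prime ∧ 200 < p ∧ p ≤ 2 * M * n ∧ ¬ p ∣ M ∧
      (p : ℤ) ∣ tA M t ∧ (p : ℤ) ∣ tB M t) : Mnl (tA M t) (tB M t) := by
  intro q hq
  rintro ⟨h4, h6⟩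
  have hdA : (q : ℤ) ∣ tA M t := (dvd_pow_self (q : ℤ) (by norm_num)).trans h4
  have hdB : (q : ℤ) ∣ tB M t := (dvd_pow_self (q : ℤ) (by norm_num)).trans h6
  have hqp : Prime (q : ℤ) := Nat.prime_iff_prime_int.1 hq
  have hqM : ¬ q ∣ M := by
    intro hd
    have hdM : (q : ℤ) ∣ (M : ℤ) := by exact_mod_cast hd
    have ha : (q : ℤ) ∣ pa M t := hdM.mul_right _
    have hB : tB M t = pl M t ^ 2 - pa M t * (pb M t * cc (pk M t) (pa M t) (pb M t)) := by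
      unfold tB BB
      ring
    have h1 : (q : ℤ) ∣ pl M t ^ 2 := by
      have h2 : pl M t ^ 2 = tB M t + pa M t * (pb M t * cc (pk M t) (pa M t) (pb M t)) := by
        rw [hB]
        ring
      rw [h2]
      exact dvd_add hdB (ha.mul_right _)
    have h3 : (q : ℤ) ∣ pl M t := hqp.dvd_of_dvd_pow h1
    have h5 : (q : ℤ) ∣ 1 := by
      have e : (1 : ℤ) = pl M t - M * t.2.1 := by
        unfold pl
        ring
      rw [e]
      exact dvd_sub h3 (hdM.mul_right _)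
    exact hqp.not_unit (isUnit_of_dvd_one h5)
  have hq200 : 200 < q := by
    by_contra h
    push Not at h
    exact hqM (h200 q hq h)
  have hM' : (1 : ℤ) ≤ M := by exact_mod_cast hM
  have hn' : (1 : ℤ) ≤ n := by exact_mod_cast hn
  have hle : q ≤ 2 * M * n := by
    by_contra h
    push Not at h
    have h' : 2 * (M : ℤ) * n < q := by exact_mod_cast h
    have hMn : (0 : ℤ) < 2 * (M : ℤ) * n := by positivity
    by_cases hA : tA M t = 0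
    · have hB : tB M t ≠ 0 := fun h0 => hAB ⟨hA, h0⟩
      have h7 : (q : ℤ) ^ 6 ≤ |tB M t| := Int.le_of_dvd (abs_pos.2 hB) ((dvd_abs _ _).2 h6)
      have h8 := abs_B hM hn ht
      have h9 : (2 * (M : ℤ) * n) ^ 6 < (q : ℤ) ^ 6 := pow_lt_pow_left₀ h' hMn.le (by norm_num)
      have h10 : 7 * (M : ℤ) ^ 4 * (n : ℤ) ^ 6 ≤ (2 * (M : ℤ) * n) ^ 6 := by
        have h11 : (M : ℤ) ^ 4 ≤ (M : ℤ) ^ 6 := pow_le_pow_right₀ hM' (by norm_num)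
        calc 7 * (M : ℤ) ^ 4 * (n : ℤ) ^ 6 ≤ 64 * (M : ℤ) ^ 6 * (n : ℤ) ^ 6 := by
              gcongr
              norm_num
          _ = (2 * (M : ℤ) * n) ^ 6 := by ring
      linarith
    · have h7 : (q : ℤ) ^ 4 ≤ |tA M t| := Int.le_of_dvd (abs_pos.2 hA) ((dvd_abs _ _).2 h4)
      have h8 := abs_A hM hn ht
      have h9 : (2 * (M : ℤ) * n) ^ 4 < (q : ℤ) ^ 4 := pow_lt_pow_left₀ h' hMn.le (by norm_num)
      have h10 : 11 * (M : ℤ) ^ 3 * (n : ℤ) ^ 4 ≤ (2 * (M : ℤ) * n) ^ 4 := by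
        have h11 : (M : ℤ) ^ 3 ≤ (M : ℤ) ^ 4 := pow_le_pow_right₀ hM' (by norm_num)
        calc 11 * (M : ℤ) ^ 3 * (n : ℤ) ^ 4 ≤ 16 * (M : ℤ) ^ 4 * (n : ℤ) ^ 4 := by
              gcongr
              norm_num
          _ = (2 * (M : ℤ) * n) ^ 4 := by ring
      linarith
  exact hno ⟨q, hq, hq200, hle, hqM, hdA, hdB⟩

end Pool.Agent.H96.RT
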