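import Mathlib

/-!
# [H96 RT GRP] Independence from 2-descent

Statement to prove (keep it): `rank_two`.

PROOF. Claim: `m • p + n • q = 0` with integers `m, n` implies `m = n = 0`. Strong induction on
`m.natAbs + n.natAbs`. If `m = 2 m'`, `n = 2 n'`: `g + g = 0` for `g = m' • p + n' • q`, so `g = 0` by `h2` and the
induction hypothesis gives `m' = n' = 0` (if `(m,n) ≠ (0,0)` then `m'.natAbs + n'.natAbs` is smaller). If `m` is odd and
`n` even: `p = g + g` with `g = -((m-1)/2) • p - (n/2) • q`, against `hp`. If `m` is even, `n` odd: against `hq`. If both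
are odd: `p + q = g + g` with `g = -((m-1)/2) • p - ((n-1)/2) • q`, against `hpq`. So the family `![p, q]` is linearly
independent over `ℤ` (`LinearIndependent.pair_iff`), and `LinearIndependent.cardinal_le_rank` (or
`le_rank_iff_exists_linearIndependent_finset`) gives `2 ≤ rank`.
-/

set_option autoImplicit false

namespace Pool.Agent.H96.RT

private theorem indep_aux {G : Type} [AddCommGroup G] (h2 : ∀ g : G, g + g = 0 → g = 0) {p q : G}
    (hp : ∀ g : G, g + g ≠ p) (hq : ∀ g : G, g + g ≠ q) (hpq : ∀ g : G, g + g ≠ p + q) :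
    ∀ N : ℕ, ∀ m n : ℤ, m.natAbs + n.natAbs ≤ N → m • p + n • q = 0 → m = 0 ∧ n = 0 := by
  intro N
  induction N with
  | zero =>
    intro m n hN _
    constructor <;> omega
  | succ N ih =>
    intro m n hN h
    rcases Int.even_or_odd' m with ⟨a, ha | ha⟩ <;> rcases Int.even_or_odd' n with ⟨b, hb | hb⟩
    · -- both even
      by_cases h0 : m = 0 ∧ n = 0
      · exact h0
      have hg : a • p + b • q = 0 := by
        apply h2
        rw [← h, ha, hb, mul_smul, mul_smul, two_smul, two_smul]
        abel
      have hlt : a.natAbs + b.natAbs ≤ N := by omega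
      have := ih a b hlt hg
      omega
    · exfalso
      apply hq (-(a • p + b • q))
      have h1 : (2 * a) • p + (2 * b + 1) • q = 0 := by rw [← ha, ← hb]; exact h
      rw [mul_smul, add_smul, mul_smul, two_smul, two_smul, one_smul] at h1
      have h3 : q + (a • p + a • p + (b • q + b • q)) = 0 := by rw [← h1]; abel
      rw [← sub_eq_zero, ← neg_eq_zero, ← h3]
      abel
    · exfalso
      apply hp (-(a • p + b • q))
      have h1 : (2 * a + 1) • p + (2 * b) • q = 0 := by rw [← ha, ← hb]; exact h
      rw [add_smul, mul_smul, mul_smul, two_smul, two_smul, one_smul] at h1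
      have h3 : p + (a • p + a • p + (b • q + b • q)) = 0 := by rw [← h1]; abel
      rw [← sub_eq_zero, ← neg_eq_zero, ← h3]
      abel
    · exfalso
      apply hpq (-(a • p + b • q))
      have h1 : (2 * a + 1) • p + (2 * b + 1) • q = 0 := by rw [← ha, ← hb]; exact h
      rw [add_smul, add_smul, mul_smul, mul_smul, two_smul, two_smul, one_smul, one_smul] at h1
      have h3 : p + q + (a • p + a • p + (b • q + b • q)) = 0 := by rw [← h1]; abel
      rw [← sub_eq_zero, ← neg_eq_zero, ← h3]
      abel

theorem rank_two {G : Type} [AddCommGroup G] (h2 : ∀ g : G, g + g = 0 → g = 0) {p q : G}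
    (hp : ∀ g : G, g + g ≠ p) (hq : ∀ g : G, g + g ≠ q) (hpq : ∀ g : G, g + g ≠ p + q) :
    2 ≤ Module.rank ℤ G := by
  have hli : LinearIndependent ℤ ![p, q] := by
    rw [LinearIndependent.pair_iff]
    intro s t hst
    exact indep_aux h2 hp hq hpq _ s t le_rfl hst
  have := hli.cardinal_le_rank
  simpa using this

end Pool.Agent.H96.RT
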