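import Mathlib

/-!
# [H96 RT INT] Rational roots are integers

Statements to prove (keep them): `cub_int`, `qua_int`, `sq_int`, `disc_pt`.

* `cub_int`: `isInteger_of_is_root_of_monic` for `X^3 + C A * X + C B` over `ℤ`, fraction field `ℚ`.
* `qua_int`: expanding, `u^4 - 4 w u^3 - 2 A u^2 - (4 A w + 8 B) u + (A^2 - 4 B w) = 0`: monic, integral coefficients.
* `sq_int`: root of `X^2 - C m`.
* `disc_pt`: if `A = 0` then `B = 0` and `r = 0`. Otherwise let `x = -3B/(2A)` in `ℚ`. From `27 B^2 = -4 A^3`: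
  `x^2 = 9 B^2/(4 A^2) = -A/3`, so `x^3 + A x = x (x^2 + A) = x (2A/3) = -B`. So `x^3 + A x + B = 0` and `x` is an
  integer by `cub_int`.
-/

set_option autoImplicit false

namespace Pool.Agent.H96.RT

theorem cub_int (A B : ℤ) (x : ℚ) (h : x ^ 3 + A * x + B = 0) : ∃ u : ℤ, (u : ℚ) = x := by
  have hm : (Polynomial.X ^ 3 + Polynomial.C A * Polynomial.X + Polynomial.C B :
      Polynomial ℤ).Monic := by monicity!
  have hr : Polynomial.aeval x (Polynomial.X ^ 3 + Polynomial.C A * Polynomial.X +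
      Polynomial.C B : Polynomial ℤ) = 0 := by
    simpa using h
  obtain ⟨u, hu⟩ := isInteger_of_is_root_of_monic hm hr
  exact ⟨u, hu⟩

private theorem qua_aux (d e f g : ℤ) (u : ℚ) (h : u ^ 4 + d * u ^ 3 + e * u ^ 2 + f * u + g = 0) :
    ∃ m : ℤ, (m : ℚ) = u := by
  have hm : (Polynomial.X ^ 4 + Polynomial.C d * Polynomial.X ^ 3 +
      Polynomial.C e * Polynomial.X ^ 2 + Polynomial.C f * Polynomial.X + Polynomial.C g :
      Polynomial ℤ).Monic := by monicity!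
  have hr : Polynomial.aeval u (Polynomial.X ^ 4 + Polynomial.C d * Polynomial.X ^ 3 +
      Polynomial.C e * Polynomial.X ^ 2 + Polynomial.C f * Polynomial.X + Polynomial.C g :
      Polynomial ℤ) = 0 := by
    simpa using h
  obtain ⟨m, hm'⟩ := isInteger_of_is_root_of_monic hm hr
  exact ⟨m, hm'⟩

theorem qua_int (A B w : ℤ) (u : ℚ)
    (h : (3 * u ^ 2 + A) ^ 2 = 4 * (u ^ 3 + A * u + B) * (w + 2 * u)) :
    ∃ m : ℤ, (m : ℚ) = u := by
  refine qua_aux (-4 * w) (-2 * A) (-(4 * A * w + 8 * B)) (A ^ 2 - 4 * B * w) u ?_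
  push_cast
  linear_combination h

theorem sq_int (m : ℤ) (v : ℚ) (h : v ^ 2 = m) : ∃ y : ℤ, (y : ℚ) = v := by
  have hm : (Polynomial.X ^ 2 - Polynomial.C m : Polynomial ℤ).Monic := by monicity!
  have hr : Polynomial.aeval v (Polynomial.X ^ 2 - Polynomial.C m : Polynomial ℤ) = 0 := by
    simp [h]
  obtain ⟨y, hy⟩ := isInteger_of_is_root_of_monic hm hr
  exact ⟨y, hy⟩

theorem disc_pt (A B : ℤ) (h : 4 * A ^ 3 + 27 * B ^ 2 = 0) : ∃ r : ℤ, r ^ 3 + A * r + B = 0 := by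
  by_cases hA : A = 0
  · subst hA
    have hB : B = 0 := by
      have h1 : B ^ 2 = 0 := by
        have h2 : (4 : ℤ) * 0 ^ 3 = 0 := by norm_num
        rw [h2, zero_add] at h
        omega
      exact pow_eq_zero_iff (two_ne_zero) |>.mp h1
    subst hB
    exact ⟨0, by norm_num⟩
  · have hA' : (A : ℚ) ≠ 0 := by exact_mod_cast hA
    have hq : 4 * (A : ℚ) ^ 3 + 27 * (B : ℚ) ^ 2 = 0 := by exact_mod_cast h
    have h1 : (-3 * (B : ℚ) / (2 * A)) ^ 3 + A * (-3 * (B : ℚ) / (2 * A)) + B = 0 := by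
      have h2 : (-3 * (B : ℚ) / (2 * A)) ^ 3 + A * (-3 * (B : ℚ) / (2 * A)) + B =
          -((B : ℚ) / (8 * A ^ 3)) * (4 * (A : ℚ) ^ 3 + 27 * (B : ℚ) ^ 2) := by
        field_simp
        ring
      rw [h2, hq, mul_zero]
    obtain ⟨r, hr⟩ := cub_int A B _ h1
    refine ⟨r, ?_⟩
    rw [← hr] at h1
    exact_mod_cast h1

end Pool.Agent.H96.RT
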