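import Pool.Agent.H96.RT.Pts
import Pool.Agent.H96.RT.Grp
import Pool.Agent.H96.RT.Int

/-!
# [H96 RT RNK] Good parameters give curves of rank at least 2

Statements to prove (keep them): `root_free`, `disc_ne`, `rnk`.

Write `A = AA k l a b`, `B = BB k l a b`, `c = cc k a b`; `key_id`: `x^3 + A x + B = (k x + l)^2 + (x-a)(x-b)(x-c)`, so for
`x ∈ {a,b,c}` it is `(k x + l)^2`, not zero (`ya, yb, yc`).

* `root_free`: if `u^3 + A u + B = 0`, then `|u| ≤ R` (`Siz.cub`) and `pts` with `y = 0` gives `u ∈ {a,b,c}`; contradiction.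
* `disc_ne`: `disc_pt` and `root_free`.
* `rnk`: `P_x = Point.some x (k x + l)` for `x = a, b, c` (`ns_of`). `rank_two` with `p = P_a`, `q = P_b`:
  `h2`: `two_tors`; a rational root is an integer (`cub_int`), against `root_free`.
  `hp`: if `Q + Q = P_w`, `w ∈ {a,b,c}`: `dbl_eq` gives rational `u, v` with `v^2 = u^3+Au+B` and
  `(3u^2+A)^2 = 4 v^2 (w + 2u) = 4 (u^3+Au+B)(w+2u)`; `qua_int`: `u` is an integer, `sq_int`: `v` is an integer;
  `Siz.qua`: `|u| ≤ R`; `pts`: `u ∈ {a,b,c}`, so `v^2 = (k u + l)^2`, and `(3u^2+A)^2 = 4 (k u + l)^2 (w + 2u)` contradicts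
  `dbl w u`. `hpq`: `P_a + P_b = -P_c` (`line_add`); if `g + g = -P_c` then `(-g) + (-g) = P_c`.
-/

set_option autoImplicit false

namespace Pool.Agent.H96.RT

variable {R k l a b : ℤ}

theorem root_free (hg : Good R k l a b) (hs : Siz R k l a b) (u : ℤ) :
    u ^ 3 + AA k l a b * u + BB k l a b ≠ 0 := by
  intro h
  have h1 := hg.pts u 0 (hs.cub u h) (by rw [h]; norm_num)
  rw [key_id] at h
  have h2 : (u - a) * (u - b) * (u - cc k a b) = 0 := by
    rcases h1 with h1 | h1 | h1 <;> rw [h1] <;> ring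
  rw [h2, add_zero] at h
  have h3 : k * u + l = 0 := pow_eq_zero_iff (two_ne_zero) |>.mp h
  rcases h1 with h1 | h1 | h1 <;> rw [h1] at h3
  · exact hg.ya h3
  · exact hg.yb h3
  · exact hg.yc h3

theorem disc_ne (hg : Good R k l a b) (hs : Siz R k l a b) :
    4 * AA k l a b ^ 3 + 27 * BB k l a b ^ 2 ≠ 0 := by
  intro h
  obtain ⟨r, hr⟩ := disc_pt _ _ h
  exact root_free hg hs r hr

private theorem rnk_pt (w : ℤ) (hw : w = a ∨ w = b ∨ w = cc k a b) :
    ((k : ℚ) * (w : ℚ) + l) ^ 2 =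
      (w : ℚ) ^ 3 + ((AA k l a b : ℤ) : ℚ) * w + ((BB k l a b : ℤ) : ℚ) := by
  have h := key_id k l a b w
  have h1 : (w - a) * (w - b) * (w - cc k a b) = 0 := by
    rcases hw with hw | hw | hw <;> rw [hw] <;> ring
  rw [h1, add_zero] at h
  exact_mod_cast h.symm

private theorem rnk_ne (hg : Good R k l a b) (w : ℤ) (hw : w = a ∨ w = b ∨ w = cc k a b) :
    (k : ℚ) * (w : ℚ) + l ≠ 0 := by
  have h : k * w + l ≠ 0 := by
    rcases hw with hw | hw | hw <;> rw [hw]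
    exacts [hg.ya, hg.yb, hg.yc]
  exact_mod_cast h

private theorem rnk_dbl (hg : Good R k l a b) (hs : Siz R k l a b) (w : ℤ)
    (hw : w = a ∨ w = b ∨ w = cc k a b) {y : ℚ}
    {h : (EC (AA k l a b) (BB k l a b)).Nonsingular (w : ℚ) y}
    (Q : (EC (AA k l a b) (BB k l a b)).Point) :
    Q + Q ≠ WeierstrassCurve.Affine.Point.some _ _ h := by
  intro hQ
  obtain ⟨u, v, h1, h2⟩ := dbl_eq Q hQ
  have h3 : (3 * u ^ 2 + ((AA k l a b : ℤ) : ℚ)) ^ 2 =
      4 * (u ^ 3 + ((AA k l a b : ℤ) : ℚ) * u + ((BB k l a b : ℤ) : ℚ)) * ((w : ℚ) + 2 * u) := by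
    rw [h2, h1]
  obtain ⟨m, rfl⟩ := qua_int _ _ w u h3
  obtain ⟨z, rfl⟩ := sq_int (m ^ 3 + AA k l a b * m + BB k l a b) v (by
    rw [h1]
    push_cast
    ring)
  have h4 : (3 * m ^ 2 + AA k l a b) ^ 2 =
      4 * (m ^ 3 + AA k l a b * m + BB k l a b) * (w + 2 * m) := by exact_mod_cast h3
  have h5 := hs.qua m w hw h4
  have h6 : z ^ 2 = m ^ 3 + AA k l a b * m + BB k l a b := by exact_mod_cast h1
  have h7 := hg.pts m z h5 h6
  refine hg.dbl w m hw h7 ?_
  rw [h4, key_id]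
  have h8 : (m - a) * (m - b) * (m - cc k a b) = 0 := by
    rcases h7 with h7 | h7 | h7 <;> rw [h7] <;> ring
  rw [h8, add_zero]

theorem rnk (hg : Good R k l a b) (hs : Siz R k l a b) :
    2 ≤ Module.rank ℤ (EC (AA k l a b) (BB k l a b)).Point := by
  have ha := ns_of (rnk_pt (k := k) (l := l) (a := a) (b := b) a (Or.inl rfl))
    (rnk_ne hg a (Or.inl rfl))
  have hb := ns_of (rnk_pt (k := k) (l := l) (a := a) (b := b) b (Or.inr (Or.inl rfl)))
    (rnk_ne hg b (Or.inr (Or.inl rfl)))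
  have hc := ns_of (rnk_pt (k := k) (l := l) (a := a) (b := b) (cc k a b) (Or.inr (Or.inr rfl)))
    (rnk_ne hg _ (Or.inr (Or.inr rfl)))
  refine rank_two (p := WeierstrassCurve.Affine.Point.some _ _ ha)
    (q := WeierstrassCurve.Affine.Point.some _ _ hb) ?_ ?_ ?_ ?_
  · intro Q hQ
    rcases two_tors Q hQ with h | ⟨x, hx⟩
    · exact h
    · exfalso
      obtain ⟨u, rfl⟩ := cub_int _ _ x hx
      exact root_free hg hs u (by exact_mod_cast hx)
  · exact fun Q => rnk_dbl hg hs a (Or.inl rfl) Q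
  · exact fun Q => rnk_dbl hg hs b (Or.inr (Or.inl rfl)) Q
  · intro Q hQ
    rw [line_add hg.hab ha hb hc] at hQ
    refine rnk_dbl hg hs (cc k a b) (Or.inr (Or.inr rfl)) (h := hc) (-Q) ?_
    rw [← neg_add, hQ, neg_neg]

end Pool.Agent.H96.RT
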