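import Pool.Agent.H96.RT.Cn1
import Pool.Agent.H96.RT.Cn2
import Pool.Agent.H96.RT.Cn3
import Pool.Agent.H96.RT.Cn4
import Pool.Agent.H96.RT.Min
import Pool.Agent.H96.RT.Rnk

/-!
# [H96 RT ASM] At least half of the parameters are good

Statement to prove (keep it): `asm`.

PROOF. `t ∈ Bx n` not in the four bad sets of `cn1`, `cn2`, `cn3`, `cn4` is good with `Mnl`: `pts` is the negation of the
condition of `cn1`; `hab, hac, hbc, yc` from `cn2`; `ya`, `yb`: `k a + l > 0` as all are positive; `dbl` from `cn3` (its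
hypotheses hold by `cn2`); `Mnl` from `mnl_of`: `tA = tB = 0` is impossible, as then `x = 0` is a root of
`x^3 + A x + B`, against `root_free` (`siz`). Cardinality: `n^8 - C n^(15/2) - 7 n^6 - 18 n^5 - n^8/5 ≥ n^8/2` for `n` large.
-/

set_option autoImplicit false

namespace Pool.Agent.H96.RT

open Finset

private theorem asm_good {M n : ℕ} (hM : 1 ≤ M) (hn : 1 ≤ n)
    (h200 : ∀ q : ℕ, q.Prime → q ≤ 200 → q ∣ M) {t : ℕ × ℕ × ℕ × ℕ} (ht : t ∈ Bx n)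
    (h1 : ¬ ∃ x y : ℤ, |x| ≤ RR M n ∧ x ≠ pa M t ∧ x ≠ pb M t ∧ x ≠ pc M t ∧
      y ^ 2 = x ^ 3 + tA M t * x + tB M t)
    (h2 : ¬ (pa M t = pb M t ∨ pa M t = pc M t ∨ pb M t = pc M t ∨
      pk M t ^ 2 = 3 * pa M t ∨ pk M t ^ 2 = 3 * pb M t ∨ pk M t ^ 2 = 3 * pc M t ∨
      pk M t * pc M t + pl M t = 0))
    (h3 : ¬ (pa M t ≠ pb M t ∧ pa M t ≠ pc M t ∧ pb M t ≠ pc M t ∧
      pk M t ^ 2 ≠ 3 * pa M t ∧ pk M t ^ 2 ≠ 3 * pb M t ∧ pk M t ^ 2 ≠ 3 * pc M t ∧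
      ∃ u w : ℤ, (u = pa M t ∨ u = pb M t ∨ u = pc M t) ∧ (w = pa M t ∨ w = pb M t ∨ w = pc M t) ∧
        (3 * w ^ 2 + tA M t) ^ 2 = 4 * (pk M t * w + pl M t) ^ 2 * (u + 2 * w)))
    (h4 : ¬ ∃ p : ℕ, p.Prime ∧ 200 < p ∧ p ≤ 2 * M * n ∧ ¬ p ∣ M ∧
      (p : ℤ) ∣ tA M t ∧ (p : ℤ) ∣ tB M t) : GoodT M n t ∧ Mnl (tA M t) (tB M t) := by
  have hs := siz hM hn ht
  rw [mem_Bx] at ht
  have hMz : (0 : ℤ) < M := by exact_mod_cast hM
  have hk : 0 < pk M t := by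
    unfold pk
    have : (0 : ℤ) < t.1 := by exact_mod_cast ht.1.1
    positivity
  have hl : 0 < pl M t := by
    unfold pl
    positivity
  have ha : 0 < pa M t := by
    unfold pa
    have : (0 : ℤ) < t.2.2.1 := by exact_mod_cast ht.2.2.1.1
    positivity
  have hb : 0 < pb M t := by
    unfold pb
    have : (0 : ℤ) < t.2.2.2 := by exact_mod_cast ht.2.2.2.1
    positivity
  simp only [not_or] at h2
  obtain ⟨e1, e2, e3, e4, e5, e6, e7⟩ := h2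
  have hg : GoodT M n t := by
    refine ⟨?_, by positivity, by positivity, e7, e1, e2, e3, ?_⟩
    · intro x y hx hy
      by_contra hno
      simp only [not_or] at hno
      exact h1 ⟨x, y, hx, hno.1, hno.2.1, hno.2.2, hy⟩
    · intro u w hu hw heq
      exact h3 ⟨e1, e2, e3, e4, e5, e6, u, w, hu, hw, heq⟩
  refine ⟨hg, mnl_of hM hn h200 (mem_Bx.2 ht) ?_ h4⟩
  rintro ⟨hA, hB⟩
  have := root_free hg hs 0
  apply this
  change (0 : ℤ) ^ 3 + tA M t * 0 + tB M t = 0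
  rw [hA, hB]
  ring

open Classical in
theorem asm (M : ℕ) (hM : 1 ≤ M) (h200 : ∀ q : ℕ, q.Prime → q ≤ 200 → q ∣ M) :
    ∃ n0 : ℕ, 1 ≤ n0 ∧ ∀ n : ℕ, n0 ≤ n →
      (n : ℝ) ^ 8 / 2 ≤ (((Bx n).filter (fun t => GoodT M n t ∧ Mnl (tA M t) (tB M t))).card : ℝ) := by
  obtain ⟨C, hC, hc1⟩ := cn1 M hM
  obtain ⟨n1, hn1⟩ := exists_nat_ge ((10 * C) ^ 2)
  refine ⟨max 10 (max (2 * M) n1), le_trans (by norm_num) (le_max_left _ _), fun n hn => ?_⟩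
  have hn10 : 10 ≤ n := (le_max_left _ _).trans hn
  have hn2M : 2 * M ≤ n := ((le_max_left _ _).trans (le_max_right _ _)).trans hn
  have hnn1 : n1 ≤ n := ((le_max_right _ _).trans (le_max_right _ _)).trans hn
  have hn : 1 ≤ n := by omega
  have hnr : (10 : ℝ) ≤ n := by exact_mod_cast hn10
  have hnpos : (0 : ℝ) < n := by linarith
  have b1 := hc1 n hn
  have b2 := cn2 M n hM hn
  have b3 := cn3 M n hM hn
  have b4 := cn4 M n hM hn2M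
  set G := (Bx n).filter (fun t => GoodT M n t ∧ Mnl (tA M t) (tB M t)) with hG
  set B1 := (Bx n).filter (fun t => ∃ x y : ℤ, |x| ≤ RR M n ∧ x ≠ pa M t ∧ x ≠ pb M t ∧
    x ≠ pc M t ∧ y ^ 2 = x ^ 3 + tA M t * x + tB M t) with hB1
  set B2 := (Bx n).filter (fun t => pa M t = pb M t ∨ pa M t = pc M t ∨ pb M t = pc M t ∨
      pk M t ^ 2 = 3 * pa M t ∨ pk M t ^ 2 = 3 * pb M t ∨ pk M t ^ 2 = 3 * pc M t ∨
      pk M t * pc M t + pl M t = 0) with hB2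
  set B3 := (Bx n).filter (fun t => pa M t ≠ pb M t ∧ pa M t ≠ pc M t ∧ pb M t ≠ pc M t ∧
      pk M t ^ 2 ≠ 3 * pa M t ∧ pk M t ^ 2 ≠ 3 * pb M t ∧ pk M t ^ 2 ≠ 3 * pc M t ∧
      ∃ u w : ℤ, (u = pa M t ∨ u = pb M t ∨ u = pc M t) ∧ (w = pa M t ∨ w = pb M t ∨ w = pc M t) ∧
        (3 * w ^ 2 + tA M t) ^ 2 = 4 * (pk M t * w + pl M t) ^ 2 * (u + 2 * w)) with hB3
  set B4 := (Bx n).filter (fun t => ∃ p : ℕ, p.Prime ∧ 200 < p ∧ p ≤ 2 * M * n ∧ ¬ p ∣ M ∧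
      (p : ℤ) ∣ tA M t ∧ (p : ℤ) ∣ tB M t) with hB4
  have hsub : Bx n ⊆ G ∪ (B1 ∪ (B2 ∪ (B3 ∪ B4))) := by
    intro t ht
    by_contra hno
    simp only [mem_union, not_or] at hno
    obtain ⟨g0, g1, g2, g3, g4⟩ := hno
    simp only [hG, hB1, hB2, hB3, hB4, mem_filter, ht, true_and] at g0 g1 g2 g3 g4
    exact g0 (asm_good hM hn h200 ht g1 g2 g3 g4)
  have hcard : n ^ 8 ≤ G.card + (B1.card + (B2.card + (B3.card + B4.card))) := by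
    rw [← card_Bx n]
    refine (card_le_card hsub).trans ?_
    refine (card_union_le _ _).trans (Nat.add_le_add_left ?_ _)
    refine (card_union_le _ _).trans (Nat.add_le_add_left ?_ _)
    refine (card_union_le _ _).trans (Nat.add_le_add_left ?_ _)
    exact card_union_le _ _
  have hcard' : (n : ℝ) ^ 8 ≤ G.card + (B1.card + (B2.card + (B3.card + B4.card))) := by
    exact_mod_cast hcard
  have b2' : (B2.card : ℝ) ≤ 7 * (n : ℝ) ^ 6 := by exact_mod_cast b2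
  have b3' : (B3.card : ℝ) ≤ 18 * (n : ℝ) ^ 5 := by exact_mod_cast b3
  have hsq : 10 * C ≤ (n : ℝ) ^ (1 / 2 : ℝ) := by
    have h1 : (10 * C) ^ 2 ≤ (n : ℝ) := hn1.trans (by exact_mod_cast hnn1)
    calc 10 * C = ((10 * C) ^ 2) ^ (1 / 2 : ℝ) := by
          rw [← Real.rpow_natCast, ← Real.rpow_mul (by positivity)]
          norm_num
      _ ≤ (n : ℝ) ^ (1 / 2 : ℝ) := Real.rpow_le_rpow (by positivity) h1 (by norm_num)
  have c1 : C * (n : ℝ) ^ (15 / 2 : ℝ) ≤ (n : ℝ) ^ 8 / 10 := by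
    have h8 : (n : ℝ) ^ 8 = (n : ℝ) ^ (15 / 2 : ℝ) * (n : ℝ) ^ (1 / 2 : ℝ) := by
      rw [← Real.rpow_add hnpos, ← Real.rpow_natCast]
      norm_num
    rw [h8]
    have hp : 0 ≤ (n : ℝ) ^ (15 / 2 : ℝ) := by positivity
    nlinarith
  have c2 : 7 * (n : ℝ) ^ 6 ≤ (n : ℝ) ^ 8 / 10 := by
    have h1 : (100 : ℝ) ≤ (n : ℝ) ^ 2 := by nlinarith
    have h2 : (n : ℝ) ^ 8 = (n : ℝ) ^ 6 * (n : ℝ) ^ 2 := by ring
    rw [h2]
    have hp : 0 ≤ (n : ℝ) ^ 6 := by positivity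
    nlinarith
  have c3 : 18 * (n : ℝ) ^ 5 ≤ (n : ℝ) ^ 8 / 20 := by
    have h1 : (1000 : ℝ) ≤ (n : ℝ) ^ 3 := by
      calc (1000 : ℝ) = 10 ^ 3 := by norm_num
        _ ≤ (n : ℝ) ^ 3 := by gcongr
    have h2 : (n : ℝ) ^ 8 = (n : ℝ) ^ 5 * (n : ℝ) ^ 3 := by ring
    rw [h2]
    have hp : 0 ≤ (n : ℝ) ^ 5 := by positivity
    nlinarith
  linarith

end Pool.Agent.H96.RT
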