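import Pool.Agent.H96.RT.Defs

/-!
# [H96 RT SIZ] Sizes

Statements to prove (keep them): `abs_c`, `abs_A`, `abs_B`, `siz`.

Let `1 ≤ M`, `1 ≤ n`, `t ∈ Bx n`, so `0 < k ≤ M n`, `0 < l ≤ 1 + M n^3 ≤ 2 M n^3`, `0 < a, b ≤ M n^2`.
* `c = k^2 - a - b`: `-2 M n^2 ≤ c ≤ M^2 n^2`, `|c| ≤ 2 M^2 n^2`.
* `|A| ≤ M^2 n^4 + 2 M n^2 * 2 M^2 n^2 + 4 M^2 n^4 ≤ 9 M^3 n^4 ≤ 11 M^3 n^4`.
* `|B| ≤ 4 M^2 n^6 + M^2 n^4 * 2 M^2 n^2 ≤ 7 M^4 n^6`.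
* `siz`: `R = 40 M^2 n^2`. Suppose `|u| > R`, put `v = |u|`, `X = n^2`, so `v > 40 M^2 X`.
  Cubic: `v^3 = |A u + B| ≤ 11 M^3 X^2 v + 7 M^4 X^3`, but `11 M^3 X^2 v ≤ (11/1600) v^3` and `7 M^4 X^3 ≤ (7/64000) v^3`.
  Quartic: the equation is `u^4 = 4 w u^3 + 2 A u^2 + (4 A w + 8 B) u - (A^2 - 4 B w)`, `|w| ≤ 2 M^2 X`:
  `v^4 ≤ 8 M^2 X v^3 + 22 M^3 X^2 v^2 + (88 M^5 + 56 M^4) X^3 v + (121 M^6 + 56 M^6) X^4`, and each term is a small multiple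
  of `v^4` (`8/40`, `22/1600`, `144/64000`, `177/2560000`). `ha`, `hb` are clear.
-/

set_option autoImplicit false

namespace Pool.Agent.H96.RT

open Finset

variable {M n : ℕ} {t : ℕ × ℕ × ℕ × ℕ}

/-- the ranges of the parameters -/
private theorem siz_rng (hM : 1 ≤ M) (hn : 1 ≤ n) (ht : t ∈ Bx n) :
    (1 : ℤ) ≤ M ∧ (1 : ℤ) ≤ n ∧ (0 ≤ pk M t ∧ pk M t ≤ M * n) ∧
      (0 ≤ pl M t ∧ pl M t ≤ 2 * M * n ^ 3) ∧ (0 ≤ pa M t ∧ pa M t ≤ M * n ^ 2) ∧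
      (0 ≤ pb M t ∧ pb M t ≤ M * n ^ 2) := by
  obtain ⟨h1, h2, h3, h4⟩ := mem_Bx.1 ht
  have hM' : (1 : ℤ) ≤ M := by exact_mod_cast hM
  have hn' : (1 : ℤ) ≤ n := by exact_mod_cast hn
  have e1 : (t.1 : ℤ) ≤ n := by exact_mod_cast h1.2
  have e2 : (t.2.1 : ℤ) ≤ (n : ℤ) ^ 3 := by exact_mod_cast h2.2
  have e3 : (t.2.2.1 : ℤ) ≤ (n : ℤ) ^ 2 := by exact_mod_cast h3.2
  have e4 : (t.2.2.2 : ℤ) ≤ (n : ℤ) ^ 2 := by exact_mod_cast h4.2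
  have e5 : (1 : ℤ) ≤ M * (n : ℤ) ^ 3 := by
    have : 0 < (M : ℤ) * (n : ℤ) ^ 3 := by positivity
    omega
  have hM0 : (0 : ℤ) ≤ M := by omega
  have f2 := mul_le_mul_of_nonneg_left e2 hM0
  refine ⟨hM', hn', ⟨?_, ?_⟩, ⟨?_, ?_⟩, ⟨?_, ?_⟩, ⟨?_, ?_⟩⟩
  · unfold pk; positivity
  · unfold pk; exact mul_le_mul_of_nonneg_left e1 hM0
  · unfold pl; positivity
  · unfold pl; linarith
  · unfold pa; positivity
  · unfold pa; exact mul_le_mul_of_nonneg_left e3 hM0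
  · unfold pb; positivity
  · unfold pb; exact mul_le_mul_of_nonneg_left e4 hM0

theorem abs_c (hM : 1 ≤ M) (hn : 1 ≤ n) (ht : t ∈ Bx n) :
    |pc M t| ≤ 2 * (M : ℤ) ^ 2 * (n : ℤ) ^ 2 := by
  obtain ⟨hM', hn', ⟨k1, k2⟩, _, ⟨a1, a2⟩, ⟨b1, b2⟩⟩ := siz_rng hM hn ht
  have h1 : (pk M t) ^ 2 ≤ (M : ℤ) ^ 2 * (n : ℤ) ^ 2 := by
    calc (pk M t) ^ 2 ≤ ((M : ℤ) * n) ^ 2 := pow_le_pow_left₀ k1 k2 2
      _ = _ := by ring
  have h2 : (M : ℤ) * (n : ℤ) ^ 2 ≤ (M : ℤ) ^ 2 * (n : ℤ) ^ 2 := by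
    refine mul_le_mul_of_nonneg_right ?_ (by positivity)
    nlinarith
  have h3 : 0 ≤ (pk M t) ^ 2 := by positivity
  have h4 : 0 ≤ (M : ℤ) ^ 2 * (n : ℤ) ^ 2 := by positivity
  unfold pc cc
  rw [abs_le]
  constructor <;> nlinarith

theorem abs_A (hM : 1 ≤ M) (hn : 1 ≤ n) (ht : t ∈ Bx n) :
    |tA M t| ≤ 11 * (M : ℤ) ^ 3 * (n : ℤ) ^ 4 := by
  have hc := abs_c hM hn ht
  obtain ⟨hM', hn', ⟨k1, k2⟩, ⟨l1, l2⟩, ⟨a1, a2⟩, ⟨b1, b2⟩⟩ := siz_rng hM hn ht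
  have h1 : |pa M t * pb M t| ≤ (M : ℤ) ^ 2 * (n : ℤ) ^ 4 := by
    rw [abs_mul, abs_of_nonneg a1, abs_of_nonneg b1]
    calc pa M t * pb M t ≤ (M * n ^ 2) * (M * n ^ 2) :=
          mul_le_mul a2 b2 b1 (by positivity)
      _ = _ := by ring
  have h2 : |(pa M t + pb M t) * pc M t| ≤ 4 * (M : ℤ) ^ 3 * (n : ℤ) ^ 4 := by
    rw [abs_mul, abs_of_nonneg (add_nonneg a1 b1)]
    calc (pa M t + pb M t) * |pc M t| ≤
          (M * n ^ 2 + M * n ^ 2) * (2 * (M : ℤ) ^ 2 * (n : ℤ) ^ 2) :=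
          mul_le_mul (add_le_add a2 b2) hc (abs_nonneg _) (by positivity)
      _ = _ := by ring
  have h3 : |2 * pk M t * pl M t| ≤ 4 * (M : ℤ) ^ 2 * (n : ℤ) ^ 4 := by
    rw [abs_of_nonneg (by positivity)]
    calc 2 * pk M t * pl M t = 2 * (pk M t * pl M t) := by ring
      _ ≤ 2 * ((M * n) * (2 * M * n ^ 3)) :=
          mul_le_mul_of_nonneg_left (mul_le_mul k2 l2 l1 (by positivity)) (by norm_num)
      _ = _ := by ring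
  have h4 : (M : ℤ) ^ 2 * (n : ℤ) ^ 4 ≤ (M : ℤ) ^ 3 * (n : ℤ) ^ 4 :=
    mul_le_mul_of_nonneg_right (pow_le_pow_right₀ hM' (by norm_num)) (by positivity)
  have h0 : 0 ≤ (M : ℤ) ^ 3 * (n : ℤ) ^ 4 := by positivity
  have h5 : tA M t = pa M t * pb M t + (pa M t + pb M t) * pc M t + 2 * pk M t * pl M t := rfl
  rw [h5]
  refine (abs_add_le _ _).trans ?_
  have h6 := abs_add_le (pa M t * pb M t) ((pa M t + pb M t) * pc M t)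
  linarith

theorem abs_B (hM : 1 ≤ M) (hn : 1 ≤ n) (ht : t ∈ Bx n) :
    |tB M t| ≤ 7 * (M : ℤ) ^ 4 * (n : ℤ) ^ 6 := by
  have hc := abs_c hM hn ht
  obtain ⟨hM', hn', ⟨k1, k2⟩, ⟨l1, l2⟩, ⟨a1, a2⟩, ⟨b1, b2⟩⟩ := siz_rng hM hn ht
  have h1 : |(pl M t) ^ 2| ≤ 4 * (M : ℤ) ^ 2 * (n : ℤ) ^ 6 := by
    rw [abs_of_nonneg (by positivity)]
    calc (pl M t) ^ 2 ≤ (2 * M * n ^ 3) ^ 2 := pow_le_pow_left₀ l1 l2 2
      _ = _ := by ring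
  have h2 : |pa M t * pb M t * pc M t| ≤ 2 * (M : ℤ) ^ 4 * (n : ℤ) ^ 6 := by
    rw [abs_mul, abs_mul, abs_of_nonneg a1, abs_of_nonneg b1]
    calc pa M t * pb M t * |pc M t| ≤
          ((M * n ^ 2) * (M * n ^ 2)) * (2 * (M : ℤ) ^ 2 * (n : ℤ) ^ 2) :=
          mul_le_mul (mul_le_mul a2 b2 b1 (by positivity)) hc (abs_nonneg _) (by positivity)
      _ = _ := by ring
  have h4 : (M : ℤ) ^ 2 * (n : ℤ) ^ 6 ≤ (M : ℤ) ^ 4 * (n : ℤ) ^ 6 :=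
    mul_le_mul_of_nonneg_right (pow_le_pow_right₀ hM' (by norm_num)) (by positivity)
  have h0 : 0 ≤ (M : ℤ) ^ 4 * (n : ℤ) ^ 6 := by positivity
  have h5 : tB M t = (pl M t) ^ 2 - pa M t * pb M t * pc M t := rfl
  rw [h5]
  refine (abs_sub _ _).trans ?_
  linarith

/-- integral roots of the cubic -/
private theorem siz_cub (u A B X : ℤ) (hX : 0 < X) (hA : |A| ≤ 11 * X ^ 2) (hB : |B| ≤ 7 * X ^ 3)
    (h : u ^ 3 + A * u + B = 0) : |u| ≤ 40 * X := by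
  by_contra hlt
  push Not at hlt
  obtain ⟨s, hs⟩ : ∃ s, |u| = 40 * X + s := ⟨|u| - 40 * X, by ring⟩
  have hs0 : 0 < s := by linarith
  have h1 : |u| ^ 3 ≤ |A| * |u| + |B| := by
    have e : u ^ 3 = -(A * u + B) := by linarith
    rw [← abs_pow, e, abs_neg]
    refine (abs_add_le _ _).trans ?_
    rw [abs_mul]
  have h2 : |u| ^ 3 ≤ 11 * X ^ 2 * |u| + 7 * X ^ 3 :=
    h1.trans (add_le_add (mul_le_mul_of_nonneg_right hA (abs_nonneg _)) hB)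
  rw [hs] at h2
  have h3 : 0 < (40 * X + s) ^ 3 - (11 * X ^ 2 * (40 * X + s) + 7 * X ^ 3) := by
    have e : (40 * X + s) ^ 3 - (11 * X ^ 2 * (40 * X + s) + 7 * X ^ 3) =
        63553 * X ^ 3 + 4789 * X ^ 2 * s + 120 * X * s ^ 2 + s ^ 3 := by ring
    rw [e]
    positivity
  linarith

/-- integral roots of the quartic -/
private theorem siz_qua (u w A B X : ℤ) (hX : 0 < X) (hw : |w| ≤ 2 * X) (hA : |A| ≤ 11 * X ^ 2)
    (hB : |B| ≤ 7 * X ^ 3)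
    (h : (3 * u ^ 2 + A) ^ 2 = 4 * (u ^ 3 + A * u + B) * (w + 2 * u)) : |u| ≤ 40 * X := by
  by_contra hlt
  push Not at hlt
  obtain ⟨s, hs⟩ : ∃ s, |u| = 40 * X + s := ⟨|u| - 40 * X, by ring⟩
  have hs0 : 0 < s := by linarith
  have hv := abs_nonneg u
  have e : u ^ 4 = 4 * (w * u ^ 3) + 2 * (A * u ^ 2) + 4 * (A * w * u) + 8 * (B * u) +
      4 * (B * w) + -A ^ 2 := by linarith
  have h1 : |u| ^ 4 ≤ 4 * (|w| * |u| ^ 3) + 2 * (|A| * |u| ^ 2) + 4 * (|A| * |w| * |u|) +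
      8 * (|B| * |u|) + 4 * (|B| * |w|) + |A| ^ 2 := by
    rw [← abs_pow, e]
    refine (abs_add_le _ _).trans ?_
    refine add_le_add ?_ (by rw [abs_neg, abs_pow])
    refine (abs_add_le _ _).trans ?_
    refine add_le_add ?_ (by rw [abs_mul, abs_mul]; norm_num)
    refine (abs_add_le _ _).trans ?_
    refine add_le_add ?_ (by rw [abs_mul, abs_mul]; norm_num)
    refine (abs_add_le _ _).trans ?_
    refine add_le_add ?_ (by rw [abs_mul, abs_mul, abs_mul]; norm_num)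
    refine (abs_add_le _ _).trans ?_
    refine add_le_add ?_ (by rw [abs_mul, abs_mul, abs_pow]; norm_num)
    rw [abs_mul, abs_mul, abs_pow]
    norm_num
  have g1 : |w| * |u| ^ 3 ≤ 2 * X * |u| ^ 3 := mul_le_mul_of_nonneg_right hw (by positivity)
  have g2 : |A| * |u| ^ 2 ≤ 11 * X ^ 2 * |u| ^ 2 := mul_le_mul_of_nonneg_right hA (by positivity)
  have g3 : |A| * |w| * |u| ≤ 11 * X ^ 2 * (2 * X) * |u| :=
    mul_le_mul_of_nonneg_right (mul_le_mul hA hw (abs_nonneg _) (by positivity)) hv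
  have g4 : |B| * |u| ≤ 7 * X ^ 3 * |u| := mul_le_mul_of_nonneg_right hB hv
  have g5 : |B| * |w| ≤ 7 * X ^ 3 * (2 * X) := mul_le_mul hB hw (abs_nonneg _) (by positivity)
  have g6 : |A| ^ 2 ≤ (11 * X ^ 2) ^ 2 := pow_le_pow_left₀ (abs_nonneg _) hA 2
  rw [hs] at h1 g1 g2 g3 g4
  have h3 : 0 < (40 * X + s) ^ 4 - (4 * (2 * X * (40 * X + s) ^ 3) +
      2 * (11 * X ^ 2 * (40 * X + s) ^ 2) + 4 * (11 * X ^ 2 * (2 * X) * (40 * X + s)) +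
      8 * (7 * X ^ 3 * (40 * X + s)) + 4 * (7 * X ^ 3 * (2 * X)) + (11 * X ^ 2) ^ 2) := by
    have e : (40 * X + s) ^ 4 - (4 * (2 * X * (40 * X + s) ^ 3) +
        2 * (11 * X ^ 2 * (40 * X + s) ^ 2) + 4 * (11 * X ^ 2 * (2 * X) * (40 * X + s)) +
        8 * (7 * X ^ 3 * (40 * X + s)) + 4 * (7 * X ^ 3 * (2 * X)) + (11 * X ^ 2) ^ 2) =
        2006863 * X ^ 4 + 215696 * X ^ 3 * s + 8618 * X ^ 2 * s ^ 2 + 152 * X * s ^ 3 + s ^ 4 := by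
      ring
    rw [e]
    positivity
  linarith

theorem siz (hM : 1 ≤ M) (hn : 1 ≤ n) (ht : t ∈ Bx n) :
    Siz (RR M n) (pk M t) (pl M t) (pa M t) (pb M t) := by
  have hc := abs_c hM hn ht
  have hA := abs_A hM hn ht
  have hB := abs_B hM hn ht
  obtain ⟨hM', hn', ⟨k1, k2⟩, ⟨l1, l2⟩, ⟨a1, a2⟩, ⟨b1, b2⟩⟩ := siz_rng hM hn ht
  obtain ⟨X, hX⟩ : ∃ X : ℤ, X = (M : ℤ) ^ 2 * (n : ℤ) ^ 2 := ⟨_, rfl⟩
  have hX0 : 0 < X := by rw [hX]; positivity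
  have hR : RR M n = 40 * X := by
    rw [hX]
    unfold RR
    ring
  have h2 : (M : ℤ) * (n : ℤ) ^ 2 ≤ X := by
    rw [hX]
    refine mul_le_mul_of_nonneg_right ?_ (by positivity)
    nlinarith
  have hc' : |pc M t| ≤ 2 * X := by
    rw [hX]
    linarith
  have hA' : |tA M t| ≤ 11 * X ^ 2 := by
    refine hA.trans ?_
    rw [hX]
    have : (M : ℤ) ^ 3 * (n : ℤ) ^ 4 ≤ (M : ℤ) ^ 4 * (n : ℤ) ^ 4 :=
      mul_le_mul_of_nonneg_right (pow_le_pow_right₀ hM' (by norm_num)) (by positivity)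
    linarith
  have hB' : |tB M t| ≤ 7 * X ^ 3 := by
    refine hB.trans ?_
    rw [hX]
    have : (M : ℤ) ^ 4 * (n : ℤ) ^ 6 ≤ (M : ℤ) ^ 6 * (n : ℤ) ^ 6 :=
      mul_le_mul_of_nonneg_right (pow_le_pow_right₀ hM' (by norm_num)) (by positivity)
    linarith
  have ha' : |pa M t| ≤ X := by
    rw [abs_of_nonneg a1]
    linarith
  have hb' : |pb M t| ≤ X := by
    rw [abs_of_nonneg b1]
    linarith
  rw [hR]
  refine ⟨?_, ?_, by linarith, by linarith⟩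
  · intro u hu
    exact siz_cub u _ _ X hX0 hA' hB' hu
  · intro u w hw hu
    refine siz_qua u w _ _ X hX0 ?_ hA' hB' hu
    rcases hw with rfl | rfl | rfl
    · linarith
    · linarith
    · exact hc'

end Pool.Agent.H96.RT
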