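import Pool.Agent.H96.RT.Cn1a
import Pool.Agent.H96.RT.Siz
import Pool.Agent.H92.DivBound

/-!
# [H96 RT CN1] Few parameters with a further integral point

Statement to prove (keep it): `cn1`.

PROOF. `C_d` the constant of `H5.W.divisor_bound` for `ε = 1/12`. For every bad `t` choose `x` (`|x| ≤ R = 40 M^2 n^2`). So the bad
set is contained in the union over `(k',a',b') ∈ Icc 1 n ×ˢ Icc 1 (n^2) ×ˢ Icc 1 (n^2)` and `x ∈ Icc (-R) R`, `x ∉ {a,b,c}`, of the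
sets of `t` with this `(k',a',b')` for which `∃ y, y^2 = x^3 + A x + B`; `l' ↦ 1 + M l'` is injective, so `few_l` (with
`S = image (l' ↦ 1 + M l') (Icc 1 (n^3))`) bounds each of them by `2 τ(P)`, `P ≠ 0`,
`|P| ≤ (R + 2 M^2 n^2)^3 ≤ (42 M^2 n^2)^3 = C n^6` (`abs_c`), `τ(P) ≤ C_d (C n^6)^(1/12) = C' n^(1/2)`.
Total: `n * n^2 * n^2 * (2R+1) * 2 C' n^(1/2) ≤ C'' n^(15/2)`.
-/

set_option autoImplicit false

namespace Pool.Agent.H96.RT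

open Finset

/-- index set -/
private noncomputable def cn1_I (M n : ℕ) : Finset (ℕ × ℕ × ℕ × ℤ) :=
  Icc 1 n ×ˢ Icc 1 (n ^ 2) ×ˢ Icc 1 (n ^ 2) ×ˢ Icc (-(RR M n)) (RR M n)

private theorem cn1_card_I (M n : ℕ) (hM : 1 ≤ M) (hn : 1 ≤ n) :
    ((cn1_I M n).card : ℝ) ≤ 81 * (M : ℝ) ^ 2 * (n : ℝ) ^ 7 := by
  have hR : (0 : ℤ) ≤ RR M n := by unfold RR; positivity
  have h1 : ((Icc (-(RR M n)) (RR M n)).card : ℤ) = 2 * RR M n + 1 := by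
    rw [Int.card_Icc, Int.toNat_of_nonneg (by linarith)]
    ring
  have h2 : ((Icc (-(RR M n)) (RR M n)).card : ℝ) = 2 * (RR M n : ℝ) + 1 := by
    have := congrArg (fun z : ℤ => (z : ℝ)) h1
    push_cast at this
    exact this
  have hRr : ((RR M n : ℤ) : ℝ) = 40 * (M : ℝ) ^ 2 * (n : ℝ) ^ 2 := by
    unfold RR; push_cast; ring
  unfold cn1_I
  simp only [Finset.card_product, Nat.card_Icc, Nat.add_sub_cancel]
  push_cast
  rw [h2, hRr]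
  have hMr : (1 : ℝ) ≤ M := by exact_mod_cast hM
  have hnr : (1 : ℝ) ≤ n := by exact_mod_cast hn
  have hMn : (1 : ℝ) ≤ (M : ℝ) ^ 2 * (n : ℝ) ^ 2 := by
    have h3 : (1 : ℝ) ≤ (M : ℝ) ^ 2 := one_le_pow₀ hMr
    have h4 : (1 : ℝ) ≤ (n : ℝ) ^ 2 := one_le_pow₀ hnr
    nlinarith
  have h5 : (0 : ℝ) ≤ (n : ℝ) ^ 5 := by positivity
  have : (n : ℝ) * ((n : ℝ) ^ 2 * ((n : ℝ) ^ 2 * (2 * (40 * (M : ℝ) ^ 2 * (n : ℝ) ^ 2) + 1))) =
      (n : ℝ) ^ 5 * (80 * ((M : ℝ) ^ 2 * (n : ℝ) ^ 2) + 1) := by ring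
  rw [this]
  have h6 : 81 * (M : ℝ) ^ 2 * (n : ℝ) ^ 7 = (n : ℝ) ^ 5 * (81 * ((M : ℝ) ^ 2 * (n : ℝ) ^ 2)) := by ring
  rw [h6]
  apply mul_le_mul_of_nonneg_left _ h5
  linarith

open Classical in
/-- the fibre -/
private theorem cn1_fibre (M n : ℕ) (hM : 1 ≤ M) (i : ℕ × ℕ × ℕ × ℤ) :
    ((Bx n).filter (fun t => (t.1 = i.1 ∧ t.2.2.1 = i.2.1 ∧ t.2.2.2 = i.2.2.1 ∧
      i.2.2.2 ≠ pa M t ∧ i.2.2.2 ≠ pb M t ∧ i.2.2.2 ≠ pc M t) ∧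
      ∃ y : ℤ, y ^ 2 = i.2.2.2 ^ 3 + tA M t * i.2.2.2 + tB M t)).card ≤
    ((Icc 1 (n ^ 3)).image (fun l' : ℕ => (1 + M * l' : ℤ)) |>.filter (fun l => ∃ y : ℤ,
      y ^ 2 = i.2.2.2 ^ 3 + AA (M * i.1) l (M * i.2.1) (M * i.2.2.1) * i.2.2.2 +
        BB (M * i.1) l (M * i.2.1) (M * i.2.2.1))).card := by
  apply Finset.card_le_card_of_injOn (fun t => pl M t)
  · intro t ht
    rw [Finset.mem_coe, Finset.mem_filter] at ht
    obtain ⟨ht, ⟨h1, h2, h3, -⟩, y, hy⟩ := ht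
    rw [Finset.mem_coe, Finset.mem_filter, Finset.mem_image]
    refine ⟨⟨t.2.1, ?_, ?_⟩, y, ?_⟩
    · rw [mem_Bx] at ht
      exact Finset.mem_Icc.2 ht.2.1
    · unfold pl; rfl
    · rw [hy, ← h1, ← h2, ← h3]
      rfl
  · intro t ht s hs hts
    rw [Finset.mem_coe, Finset.mem_filter] at ht hs
    obtain ⟨-, ⟨h1, h2, h3, -⟩, -⟩ := ht
    obtain ⟨-, ⟨g1, g2, g3, -⟩, -⟩ := hs
    have hM0 : (M : ℤ) ≠ 0 := by
      have : (M : ℤ) ≥ 1 := by exact_mod_cast hM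
      omega
    have hl : t.2.1 = s.2.1 := by
      simp only [pl] at hts
      have : (M : ℤ) * t.2.1 = M * s.2.1 := by linarith
      exact_mod_cast mul_left_cancel₀ hM0 this
    ext
    · rw [h1, g1]
    · exact hl
    · rw [h2, g2]
    · rw [h3, g3]

open Classical in
theorem cn1 (M : ℕ) (hM : 1 ≤ M) : ∃ C : ℝ, 0 < C ∧ ∀ n : ℕ, 1 ≤ n →
    (((Bx n).filter (fun t => ∃ x y : ℤ, |x| ≤ RR M n ∧ x ≠ pa M t ∧ x ≠ pb M t ∧ x ≠ pc M t ∧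
      y ^ 2 = x ^ 3 + tA M t * x + tB M t)).card : ℝ) ≤ C * (n : ℝ) ^ (15 / 2 : ℝ) := by
  obtain ⟨D, hD, hdiv⟩ := H5.W.divisor_bound (1 / 12) (by norm_num)
  have hMr : (1 : ℝ) ≤ M := by exact_mod_cast hM
  have hMpos : (0 : ℝ) < M := by linarith
  refine ⟨81 * (M : ℝ) ^ 2 * (2 * (D * ((42 * (M : ℝ) ^ 2) ^ 3) ^ (1 / 12 : ℝ))), by positivity, ?_⟩
  intro n hn
  have hnr : (1 : ℝ) ≤ n := by exact_mod_cast hn
  have hnpos : (0 : ℝ) < n := by linarith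
  set F : ℕ × ℕ × ℕ × ℤ → Finset (ℕ × ℕ × ℕ × ℕ) := fun i =>
    (Bx n).filter (fun t => (t.1 = i.1 ∧ t.2.2.1 = i.2.1 ∧ t.2.2.2 = i.2.2.1 ∧
      i.2.2.2 ≠ pa M t ∧ i.2.2.2 ≠ pb M t ∧ i.2.2.2 ≠ pc M t) ∧
      ∃ y : ℤ, y ^ 2 = i.2.2.2 ^ 3 + tA M t * i.2.2.2 + tB M t) with hF
  have hsub : (Bx n).filter (fun t => ∃ x y : ℤ, |x| ≤ RR M n ∧ x ≠ pa M t ∧ x ≠ pb M t ∧
      x ≠ pc M t ∧ y ^ 2 = x ^ 3 + tA M t * x + tB M t) ⊆ (cn1_I M n).biUnion F := by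
    intro t ht
    obtain ⟨ht, x, y, hx, h1, h2, h3, hy⟩ := Finset.mem_filter.1 ht
    rw [Finset.mem_biUnion]
    refine ⟨(t.1, t.2.2.1, t.2.2.2, x), ?_, ?_⟩
    · rw [mem_Bx] at ht
      simp only [cn1_I, Finset.mem_product, Finset.mem_Icc]
      exact ⟨ht.1, ht.2.2.1, ht.2.2.2, abs_le.1 hx⟩
    · rw [hF]
      exact Finset.mem_filter.2 ⟨ht, ⟨rfl, rfl, rfl, h1, h2, h3⟩, y, hy⟩
  have hone : ∀ i ∈ cn1_I M n, ((F i).card : ℝ) ≤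
      2 * (D * ((42 * (M : ℝ) ^ 2) ^ 3) ^ (1 / 12 : ℝ)) * (n : ℝ) ^ (1 / 2 : ℝ) := by
    intro i hi
    have hpos : (0 : ℝ) ≤ 2 * (D * ((42 * (M : ℝ) ^ 2) ^ 3) ^ (1 / 12 : ℝ)) * (n : ℝ) ^ (1 / 2 : ℝ) := by
      positivity
    by_cases hemp : F i = ∅
    · rw [hemp, Finset.card_empty]
      simpa using hpos
    · obtain ⟨t, ht⟩ := Finset.nonempty_iff_ne_empty.2 hemp
      rw [hF] at ht
      obtain ⟨ht, ⟨h1, h2, h3, h4, h5, h6⟩, -⟩ := Finset.mem_filter.1 ht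
      have hcard := cn1_fibre M n hM i
      have e1 : (M : ℤ) * i.1 = pk M t := by rw [← h1]; rfl
      have e2 : (M : ℤ) * i.2.1 = pa M t := by rw [← h2]; rfl
      have e3 : (M : ℤ) * i.2.2.1 = pb M t := by rw [← h3]; rfl
      have hP : (i.2.2.2 - M * i.2.1) * (i.2.2.2 - M * i.2.2.1) *
          (i.2.2.2 - cc (M * i.1) (M * i.2.1) (M * i.2.2.1)) ≠ 0 := by
        rw [e1, e2, e3]
        exact mul_ne_zero (mul_ne_zero (sub_ne_zero.2 h4) (sub_ne_zero.2 h5)) (sub_ne_zero.2 h6)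
      have hfew := few_l (M * i.1) (M * i.2.1) (M * i.2.2.1) i.2.2.2 hP
        ((Icc 1 (n ^ 3)).image (fun l' : ℕ => (1 + M * l' : ℤ)))
      have hle := le_trans hcard hfew
      set P : ℤ := (i.2.2.2 - M * i.2.1) * (i.2.2.2 - M * i.2.2.1) *
          (i.2.2.2 - cc (M * i.1) (M * i.2.1) (M * i.2.2.1)) with hPdef
      have hP1 : 1 ≤ P.natAbs := Int.natAbs_pos.2 hP
      have hPle : |P| ≤ (42 * (M : ℤ) ^ 2 * (n : ℤ) ^ 2) ^ 3 := by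
        have hx : |i.2.2.2| ≤ 40 * (M : ℤ) ^ 2 * (n : ℤ) ^ 2 := by
          simp only [cn1_I, Finset.mem_product, Finset.mem_Icc] at hi
          exact abs_le.2 hi.2.2.2
        have hs := siz hM hn ht
        have hMn : (M : ℤ) * (n : ℤ) ^ 2 ≤ (M : ℤ) ^ 2 * (n : ℤ) ^ 2 := by
          have : (M : ℤ) ≤ (M : ℤ) ^ 2 := by
            have : (1 : ℤ) ≤ M := by exact_mod_cast hM
            nlinarith
          exact mul_le_mul_of_nonneg_right this (by positivity)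
        have ha : |pa M t| ≤ 2 * (M : ℤ) ^ 2 * (n : ℤ) ^ 2 := by
          rw [mem_Bx] at ht
          have h7 : (t.2.2.1 : ℤ) ≤ (n : ℤ) ^ 2 := by exact_mod_cast ht.2.2.1.2
          have h8 : (0 : ℤ) ≤ (M : ℤ) * t.2.2.1 := by positivity
          unfold pa
          rw [abs_of_nonneg h8]
          have h9 : (M : ℤ) * t.2.2.1 ≤ M * (n : ℤ) ^ 2 := mul_le_mul_of_nonneg_left h7 (by positivity)
          have h10 : (0 : ℤ) ≤ (M : ℤ) ^ 2 * (n : ℤ) ^ 2 := by positivity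
          linarith
        have hb : |pb M t| ≤ 2 * (M : ℤ) ^ 2 * (n : ℤ) ^ 2 := by
          rw [mem_Bx] at ht
          have h7 : (t.2.2.2 : ℤ) ≤ (n : ℤ) ^ 2 := by exact_mod_cast ht.2.2.2.2
          have h8 : (0 : ℤ) ≤ (M : ℤ) * t.2.2.2 := by positivity
          unfold pb
          rw [abs_of_nonneg h8]
          have h9 : (M : ℤ) * t.2.2.2 ≤ M * (n : ℤ) ^ 2 := mul_le_mul_of_nonneg_left h7 (by positivity)
          have h10 : (0 : ℤ) ≤ (M : ℤ) ^ 2 * (n : ℤ) ^ 2 := by positivity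
          linarith
        have hc := abs_c hM hn ht
        have key : ∀ z : ℤ, |z| ≤ 2 * (M : ℤ) ^ 2 * (n : ℤ) ^ 2 →
            |i.2.2.2 - z| ≤ 42 * (M : ℤ) ^ 2 * (n : ℤ) ^ 2 := by
          intro z hz
          have := abs_sub i.2.2.2 z
          linarith
        rw [hPdef, e1, e2, e3, abs_mul, abs_mul]
        have k1 := key _ ha
        have k2 := key _ hb
        have k3 := key _ hc
        unfold pc at k3
        calc _ ≤ (42 * (M : ℤ) ^ 2 * (n : ℤ) ^ 2) * (42 * (M : ℤ) ^ 2 * (n : ℤ) ^ 2) *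
              (42 * (M : ℤ) ^ 2 * (n : ℤ) ^ 2) := by
              gcongr
          _ = _ := by ring
      have hPr : ((P.natAbs : ℕ) : ℝ) ≤ (42 * (M : ℝ) ^ 2) ^ 3 * (n : ℝ) ^ 6 := by
        have : ((P.natAbs : ℕ) : ℤ) ≤ (42 * (M : ℤ) ^ 2 * (n : ℤ) ^ 2) ^ 3 := by
          rw [Int.natCast_natAbs]; exact hPle
        have h11 : ((P.natAbs : ℕ) : ℝ) ≤ (42 * (M : ℝ) ^ 2 * (n : ℝ) ^ 2) ^ 3 := by
          exact_mod_cast this
        calc _ ≤ _ := h11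
          _ = _ := by ring
      have hd := hdiv P.natAbs hP1
      have hrp : ((P.natAbs : ℕ) : ℝ) ^ (1 / 12 : ℝ) ≤
          ((42 * (M : ℝ) ^ 2) ^ 3) ^ (1 / 12 : ℝ) * (n : ℝ) ^ (1 / 2 : ℝ) := by
        calc _ ≤ ((42 * (M : ℝ) ^ 2) ^ 3 * (n : ℝ) ^ 6) ^ (1 / 12 : ℝ) :=
              Real.rpow_le_rpow (by positivity) hPr (by norm_num)
          _ = ((42 * (M : ℝ) ^ 2) ^ 3) ^ (1 / 12 : ℝ) * ((n : ℝ) ^ 6) ^ (1 / 12 : ℝ) :=
              Real.mul_rpow (by positivity) (by positivity)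
          _ = _ := by
              congr 1
              rw [← Real.rpow_natCast, ← Real.rpow_mul (by positivity)]
              norm_num
      have hle' : ((F i).card : ℝ) ≤ 2 * (P.natAbs.divisors.card : ℝ) := by
        exact_mod_cast hle
      calc ((F i).card : ℝ) ≤ 2 * (P.natAbs.divisors.card : ℝ) := hle'
        _ ≤ 2 * (D * ((P.natAbs : ℕ) : ℝ) ^ (1 / 12 : ℝ)) := by linarith
        _ ≤ 2 * (D * (((42 * (M : ℝ) ^ 2) ^ 3) ^ (1 / 12 : ℝ) * (n : ℝ) ^ (1 / 2 : ℝ))) := by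
            gcongr
        _ = _ := by ring
  have h15 : (n : ℝ) ^ (15 / 2 : ℝ) = (n : ℝ) ^ 7 * (n : ℝ) ^ (1 / 2 : ℝ) := by
    rw [← Real.rpow_natCast, ← Real.rpow_add hnpos]
    norm_num
  calc _ ≤ (((cn1_I M n).biUnion F).card : ℝ) := by exact_mod_cast Finset.card_le_card hsub
    _ ≤ ((∑ i ∈ cn1_I M n, (F i).card : ℕ) : ℝ) := by exact_mod_cast Finset.card_biUnion_le
    _ = ∑ i ∈ cn1_I M n, ((F i).card : ℝ) := by push_cast; rfl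
    _ ≤ ∑ i ∈ cn1_I M n, 2 * (D * ((42 * (M : ℝ) ^ 2) ^ 3) ^ (1 / 12 : ℝ)) * (n : ℝ) ^ (1 / 2 : ℝ) :=
        Finset.sum_le_sum hone
    _ = ((cn1_I M n).card : ℝ) * (2 * (D * ((42 * (M : ℝ) ^ 2) ^ 3) ^ (1 / 12 : ℝ)) *
          (n : ℝ) ^ (1 / 2 : ℝ)) := by rw [Finset.sum_const, nsmul_eq_mul]
    _ ≤ (81 * (M : ℝ) ^ 2 * (n : ℝ) ^ 7) * (2 * (D * ((42 * (M : ℝ) ^ 2) ^ 3) ^ (1 / 12 : ℝ)) *
          (n : ℝ) ^ (1 / 2 : ℝ)) := by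
        apply mul_le_mul_of_nonneg_right (cn1_card_I M n hM hn) (by positivity)
    _ = _ := by rw [h15]; ring

end Pool.Agent.H96.RT
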