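import Pool.Agent.H96.RT.Defs

/-!
# [H96 RT CN1A] Few `l` for a further integral point with given abscissa

Statement to prove (keep it): `few_l`.

PROOF. Let `P = (x-a)(x-b)(x-c)`, not zero. If `y^2 = x^3 + A x + B = (k x + l)^2 + P` (`key_id`), then
`d = y - k x - l` divides `P` and `e = P / d = y + k x + l`, so `2 (k x + l) = e - d` and `l = (P / d - d)/2 - k x` is determined
by `d`. The integers `d` dividing `P` are `± d'`, `d' ∈ P.natAbs.divisors`. So the set of `l` is contained in the image of
`P.natAbs.divisors ×ˢ {1, -1}` (or the union of two images of `P.natAbs.divisors`), at most `2 #divisors` elements.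
-/

set_option autoImplicit false

namespace Pool.Agent.H96.RT

open Finset

open Classical in
theorem few_l (k a b x : ℤ) (hP : (x - a) * (x - b) * (x - cc k a b) ≠ 0) (S : Finset ℤ) :
    (S.filter (fun l => ∃ y : ℤ, y ^ 2 = x ^ 3 + AA k l a b * x + BB k l a b)).card ≤
      2 * ((x - a) * (x - b) * (x - cc k a b)).natAbs.divisors.card := by
  set P : ℤ := (x - a) * (x - b) * (x - cc k a b) with hPdef
  set F : ℤ → ℤ := fun d => (P / d - d) / 2 - k * x with hF
  have hsub : S.filter (fun l => ∃ y : ℤ, y ^ 2 = x ^ 3 + AA k l a b * x + BB k l a b) ⊆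
      (P.natAbs.divisors.image (fun m : ℕ => F (m : ℤ))) ∪
        (P.natAbs.divisors.image (fun m : ℕ => F (-(m : ℤ)))) := by
    intro l hl
    obtain ⟨-, y, hy⟩ := Finset.mem_filter.1 hl
    rw [key_id] at hy
    have hde : (y - (k * x + l)) * (y + (k * x + l)) = P := by
      rw [hPdef]; linear_combination hy
    have hd0 : y - (k * x + l) ≠ 0 := by
      intro h
      rw [h, zero_mul] at hde
      exact hP hde.symm
    have hdiv : P / (y - (k * x + l)) = y + (k * x + l) := by
      rw [← hde]
      exact Int.mul_ediv_cancel_left _ hd0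
    have hFl : F (y - (k * x + l)) = l := by
      rw [hF]
      simp only
      rw [hdiv]
      have : (y + (k * x + l) - (y - (k * x + l))) = 2 * (k * x + l) := by ring
      rw [this, Int.mul_ediv_cancel_left _ (by norm_num)]
      ring
    have hdvd : (y - (k * x + l)).natAbs ∣ P.natAbs := by
      rw [Int.natAbs_dvd_natAbs]
      exact ⟨_, hde.symm⟩
    have hmem : (y - (k * x + l)).natAbs ∈ P.natAbs.divisors := by
      rw [Nat.mem_divisors]
      exact ⟨hdvd, by rwa [Ne, Int.natAbs_eq_zero]⟩
    rw [Finset.mem_union]
    rcases Int.natAbs_eq (y - (k * x + l)) with h | h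
    · left
      rw [Finset.mem_image]
      refine ⟨_, hmem, ?_⟩
      rw [← h]
      exact hFl
    · right
      rw [Finset.mem_image]
      refine ⟨_, hmem, ?_⟩
      rw [← h]
      exact hFl
  calc _ ≤ _ := Finset.card_le_card hsub
    _ ≤ _ := Finset.card_union_le _ _
    _ ≤ P.natAbs.divisors.card + P.natAbs.divisors.card :=
        Nat.add_le_add Finset.card_image_le Finset.card_image_le
    _ = _ := by ring

end Pool.Agent.H96.RT
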