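import Pool.Agent.H96.RT.Defs

/-!
# [H96 RT CN4A] Few `a` and `b` modulo `p`

Statements to prove (keep them): `res_three`, `cn4p`.

* `res_three`: the polynomial `M^3 X^3 - (k M X + l)^2` over `ZMod p` has degree 3 (`p ∤ M`), so at most 3 roots
  (`Polynomial.card_roots'`); an interval of `m` consecutive naturals `1..m` contains at most `m/p + 1` elements of a residue class
  mod `p` (`Nat.count_modEq_card` or: the map `x ↦ (x mod p, x / p)` is injective and `x / p ≤ m / p`). So the set is contained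
  in at most three residue classes and has at most `3 (m/p + 1)` elements.
* `cn4p`: if `p ∣ tA`, `p ∣ tB`, then by `key_id` with `x = a` (where the product vanishes) `(k a + l)^2 = a^3 + A a + B`, so
  `p ∣ a^3 - (k a + l)^2`, and the same for `b`. So `(k',l') ∈ Icc 1 n ×ˢ Icc 1 (n^3)` and `a'`, `b'` in the sets of
  `res_three` with `m = n^2`, `k = M k'`, `l = 1 + M l'`.
-/

set_option autoImplicit false

namespace Pool.Agent.H96.RT

open Finset

private theorem r3_class (p : ℕ) (hp : 0 < p) (m r : ℕ) :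
    ((Icc 1 m).filter (fun x : ℕ => x % p = r)).card ≤ m / p + 1 := by
  have hc : (Finset.range (m / p + 1)).card = m / p + 1 := Finset.card_range _
  rw [← hc]
  apply Finset.card_le_card_of_injOn (fun x => x / p)
  · intro x hx
    rw [Finset.mem_coe, Finset.mem_filter, Finset.mem_Icc] at hx
    rw [Finset.mem_coe, Finset.mem_range]
    exact Nat.lt_succ_of_le (Nat.div_le_div_right hx.1.2)
  · intro x hx y hy hxy
    rw [Finset.mem_coe, Finset.mem_filter] at hx hy
    simp only at hxy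
    rw [← Nat.div_add_mod x p, ← Nat.div_add_mod y p, hx.2, hy.2, hxy]

theorem res_three (p : ℕ) (hp : p.Prime) (M : ℕ) (hpM : ¬ p ∣ M) (k l : ℤ) (m : ℕ) :
    ((Icc 1 m).filter (fun x : ℕ => (p : ℤ) ∣ ((M : ℤ) * x) ^ 3 - (k * (M * x) + l) ^ 2)).card ≤
      3 * (m / p + 1) := by
  classical
  haveI : Fact p.Prime := ⟨hp⟩
  set P : Polynomial (ZMod p) :=
    (Polynomial.C (M : ZMod p) * Polynomial.X) ^ 3 -
      (Polynomial.C (k : ZMod p) * (Polynomial.C (M : ZMod p) * Polynomial.X) +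
        Polynomial.C (l : ZMod p)) ^ 2 with hP
  have hM0 : (M : ZMod p) ≠ 0 := by
    intro h
    exact hpM ((ZMod.natCast_eq_zero_iff _ _).1 h)
  have hco : P.coeff 3 = (M : ZMod p) ^ 3 := by
    have h1 : P = Polynomial.C ((M : ZMod p) ^ 3) * Polynomial.X ^ 3 +
        Polynomial.C (-(k : ZMod p) ^ 2 * (M : ZMod p) ^ 2) * Polynomial.X ^ 2 +
        Polynomial.C (-2 * (k : ZMod p) * M * l) * Polynomial.X +
        Polynomial.C (-(l : ZMod p) ^ 2) := by
      rw [hP]
      simp only [map_mul, map_neg, map_pow, map_ofNat]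
      ring
    rw [h1]
    simp only [Polynomial.coeff_add, Polynomial.coeff_C_mul, Polynomial.coeff_X_pow,
      Polynomial.coeff_X, Polynomial.coeff_C]
    norm_num
  have hP0 : P ≠ 0 := by
    intro h
    rw [h, Polynomial.coeff_zero] at hco
    exact pow_ne_zero 3 hM0 hco.symm
  have hdeg : P.natDegree ≤ 3 := by
    rw [hP]
    compute_degree
  have hroots : P.roots.toFinset.card ≤ 3 :=
    le_trans (Multiset.toFinset_card_le _) (le_trans (Polynomial.card_roots' _) hdeg)
  have hsub : (Icc 1 m).filter (fun x : ℕ => (p : ℤ) ∣ ((M : ℤ) * x) ^ 3 - (k * (M * x) + l) ^ 2) ⊆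
      P.roots.toFinset.biUnion (fun r => (Icc 1 m).filter (fun x : ℕ => x % p = r.val)) := by
    intro x hx
    obtain ⟨hx, hd⟩ := Finset.mem_filter.1 hx
    rw [Finset.mem_biUnion]
    refine ⟨(x : ZMod p), ?_, ?_⟩
    · rw [Multiset.mem_toFinset, Polynomial.mem_roots hP0, Polynomial.IsRoot.def, hP]
      have h1 := (ZMod.intCast_zmod_eq_zero_iff_dvd _ p).2 hd
      push_cast at h1
      simpa using h1
    · rw [Finset.mem_filter]
      exact ⟨hx, by rw [ZMod.val_natCast]⟩
  calc _ ≤ _ := Finset.card_le_card hsub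
    _ ≤ ∑ r ∈ P.roots.toFinset, ((Icc 1 m).filter (fun x : ℕ => x % p = r.val)).card :=
        Finset.card_biUnion_le
    _ ≤ ∑ r ∈ P.roots.toFinset, (m / p + 1) :=
        Finset.sum_le_sum (fun r _ => r3_class p hp.pos m r.val)
    _ = P.roots.toFinset.card * (m / p + 1) := by rw [Finset.sum_const, smul_eq_mul]
    _ ≤ 3 * (m / p + 1) := Nat.mul_le_mul_right _ hroots

theorem cn4p (p : ℕ) (hp : p.Prime) (M : ℕ) (hpM : ¬ p ∣ M) (n : ℕ) :
    ((Bx n).filter (fun t => (p : ℤ) ∣ tA M t ∧ (p : ℤ) ∣ tB M t)).card ≤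
      n * n ^ 3 * (3 * (n ^ 2 / p + 1)) ^ 2 := by
  classical
  set G : ℤ → ℤ → Finset ℕ := fun k l => (Icc 1 (n ^ 2)).filter
    (fun x : ℕ => (p : ℤ) ∣ ((M : ℤ) * x) ^ 3 - (k * (M * x) + l) ^ 2) with hG
  set F : ℕ × ℕ → Finset (ℕ × ℕ × ℕ × ℕ) := fun q =>
    (Bx n).filter (fun t => (t.1 = q.1 ∧ t.2.1 = q.2) ∧
      (p : ℤ) ∣ tA M t ∧ (p : ℤ) ∣ tB M t) with hF
  have hsub : (Bx n).filter (fun t => (p : ℤ) ∣ tA M t ∧ (p : ℤ) ∣ tB M t) ⊆
      (Icc 1 n ×ˢ Icc 1 (n ^ 3)).biUnion F := by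
    intro t ht
    obtain ⟨ht, h⟩ := Finset.mem_filter.1 ht
    rw [Finset.mem_biUnion]
    refine ⟨(t.1, t.2.1), ?_, Finset.mem_filter.2 ⟨ht, ⟨rfl, rfl⟩, h⟩⟩
    rw [mem_Bx] at ht
    simp only [Finset.mem_product, Finset.mem_Icc]
    exact ⟨ht.1, ht.2.1⟩
  have hone : ∀ q ∈ Icc 1 n ×ˢ Icc 1 (n ^ 3), (F q).card ≤ (3 * (n ^ 2 / p + 1)) ^ 2 := by
    intro q _
    have h1 : (F q).card ≤ (G (M * q.1) (1 + M * q.2) ×ˢ G (M * q.1) (1 + M * q.2)).card := by
      apply Finset.card_le_card_of_injOn (fun t => (t.2.2.1, t.2.2.2))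
      · intro t ht
        rw [Finset.mem_coe, Finset.mem_filter] at ht
        obtain ⟨ht, ⟨h1, h2⟩, hA, hB⟩ := ht
        rw [mem_Bx] at ht
        have key : ∀ x : ℤ, (x - pa M t) * (x - pb M t) * (x - pc M t) = 0 →
            (p : ℤ) ∣ x ^ 3 - (pk M t * x + pl M t) ^ 2 := by
          intro x hz
          have h4 := key_id (pk M t) (pl M t) (pa M t) (pb M t) x
          change x ^ 3 + tA M t * x + tB M t = (pk M t * x + pl M t) ^ 2 +
            (x - pa M t) * (x - pb M t) * (x - pc M t) at h4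
          rw [hz, add_zero] at h4
          have h5 : x ^ 3 - (pk M t * x + pl M t) ^ 2 = -(tA M t * x + tB M t) := by
            linear_combination h4
          rw [h5, dvd_neg]
          exact dvd_add (Dvd.dvd.mul_right hA x) hB
        have ka := key (pa M t) (by ring)
        have kb := key (pb M t) (by ring)
        rw [Finset.mem_coe, Finset.mem_product]
        constructor
        · rw [hG]
          refine Finset.mem_filter.2 ⟨Finset.mem_Icc.2 ht.2.2.1, ?_⟩
          rw [← h1, ← h2]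
          exact ka
        · rw [hG]
          refine Finset.mem_filter.2 ⟨Finset.mem_Icc.2 ht.2.2.2, ?_⟩
          rw [← h1, ← h2]
          exact kb
      · intro t ht s hs hts
        rw [Finset.mem_coe, Finset.mem_filter] at ht hs
        simp only [Prod.mk.injEq] at hts
        ext
        · rw [ht.2.1.1, hs.2.1.1]
        · rw [ht.2.1.2, hs.2.1.2]
        · exact hts.1
        · exact hts.2
    refine le_trans h1 ?_
    rw [Finset.card_product, sq]
    exact Nat.mul_le_mul (res_three p hp M hpM _ _ _) (res_three p hp M hpM _ _ _)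
  calc _ ≤ _ := Finset.card_le_card hsub
    _ ≤ ∑ q ∈ Icc 1 n ×ˢ Icc 1 (n ^ 3), (F q).card := Finset.card_biUnion_le
    _ ≤ ∑ q ∈ Icc 1 n ×ˢ Icc 1 (n ^ 3), (3 * (n ^ 2 / p + 1)) ^ 2 := Finset.sum_le_sum hone
    _ = _ := by
      rw [Finset.sum_const, smul_eq_mul, Finset.card_product, Nat.card_Icc, Nat.card_Icc,
        Nat.add_sub_cancel, Nat.add_sub_cancel]

end Pool.Agent.H96.RT
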