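import Mathlib

/-!
# At least `c H^(2/3)` elliptic curves of rank at least 2 (H96/RT): definitions and plan

MP_5b1d62_nt, proposal 107. Theorem: `1 - δ₀(H) - δ₁(H) ≥ c H^(-1/6)` for all large `H`.

Parameters `k, l, a, b`, third abscissa `c = cc k a b = k^2 - a - b`. The line `y = k x + l` meets
`E : y^2 = x^3 + A x + B`, `A = AA k l a b`, `B = BB k l a b`, in the points with `x = a, b, c` (`key_id`).

* `Grp`: two elements `p, q` with `p, q, p+q` not divisible by 2 in a group without 2-torsion are independent.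
* `Pts`: the group law (doubling, three collinear points). `Int`: rational roots are integers.
* `Rnk`: for `Good` parameters the discriminant is nonzero and the rank is at least 2.
* `Siz`: sizes. `Cn1` (divisors: no further integral points), `Cn2`, `Cn3`, `Cn4` (minimality): the parameters
  which are not good are rare. `Min`: minimality. `Fib`: at most 36 good parameters give the same curve.
* `Asm`: at least `n^8/2` good parameters in the box `Bx n`. `Fin`: conclusion.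

All modules are for an arbitrary modulus `M ≥ 1`; in the end `M = 200!`.
-/

set_option autoImplicit false

namespace Pool.Agent.H96.RT

open Finset

/-- the third abscissa -/
def cc (k a b : ℤ) : ℤ := k ^ 2 - a - b

/-- the coefficient `A` -/
def AA (k l a b : ℤ) : ℤ := a * b + (a + b) * cc k a b + 2 * k * l

/-- the coefficient `B` -/
def BB (k l a b : ℤ) : ℤ := l ^ 2 - a * b * cc k a b

theorem key_id (k l a b x : ℤ) : x ^ 3 + AA k l a b * x + BB k l a b =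
    (k * x + l) ^ 2 + (x - a) * (x - b) * (x - cc k a b) := by
  unfold AA BB cc
  ring

/-- the curve `y^2 = x^3 + A x + B` -/
abbrev EC (A B : ℤ) : WeierstrassCurve.Affine ℚ :=
  (WeierstrassCurve.mk 0 0 0 (A : ℚ) (B : ℚ)).toAffine

/-- good parameters -/
structure Good (R k l a b : ℤ) : Prop where
  /-- no further integral points -/
  pts : ∀ x y : ℤ, |x| ≤ R → y ^ 2 = x ^ 3 + AA k l a b * x + BB k l a b →
    x = a ∨ x = b ∨ x = cc k a b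
  /-- the ordinates are not zero -/
  ya : k * a + l ≠ 0
  /-- the ordinates are not zero -/
  yb : k * b + l ≠ 0
  /-- the ordinates are not zero -/
  yc : k * cc k a b + l ≠ 0
  /-- distinct -/
  hab : a ≠ b
  /-- distinct -/
  hac : a ≠ cc k a b
  /-- distinct -/
  hbc : b ≠ cc k a b
  /-- none of the three points is the double of one of them -/
  dbl : ∀ u w : ℤ, (u = a ∨ u = b ∨ u = cc k a b) → (w = a ∨ w = b ∨ w = cc k a b) →
    (3 * w ^ 2 + AA k l a b) ^ 2 ≠ 4 * (k * w + l) ^ 2 * (u + 2 * w)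

/-- `R` bounds the integral roots that occur -/
structure Siz (R k l a b : ℤ) : Prop where
  /-- the cubic -/
  cub : ∀ u : ℤ, u ^ 3 + AA k l a b * u + BB k l a b = 0 → |u| ≤ R
  /-- halves of the three points -/
  qua : ∀ u w : ℤ, (w = a ∨ w = b ∨ w = cc k a b) →
    (3 * u ^ 2 + AA k l a b) ^ 2 = 4 * (u ^ 3 + AA k l a b * u + BB k l a b) * (w + 2 * u) →
    |u| ≤ R
  /-- first abscissa -/
  ha : |a| ≤ R
  /-- second abscissa -/
  hb : |b| ≤ R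

/-- minimality of the pair `(A,B)` -/
def Mnl (A B : ℤ) : Prop := ∀ q : ℕ, q.Prime → ¬ ((q : ℤ) ^ 4 ∣ A ∧ (q : ℤ) ^ 6 ∣ B)

/-- the box of parameters `(k',l',a',b')`, where `k = M k'`, `l = 1 + M l'`, `a = M a'`, `b = M b'` -/
def Bx (n : ℕ) : Finset (ℕ × ℕ × ℕ × ℕ) :=
  Icc 1 n ×ˢ Icc 1 (n ^ 3) ×ˢ Icc 1 (n ^ 2) ×ˢ Icc 1 (n ^ 2)

/-- `k` -/
def pk (M : ℕ) (t : ℕ × ℕ × ℕ × ℕ) : ℤ := M * t.1
/-- `l` -/
def pl (M : ℕ) (t : ℕ × ℕ × ℕ × ℕ) : ℤ := 1 + M * t.2.1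
/-- `a` -/
def pa (M : ℕ) (t : ℕ × ℕ × ℕ × ℕ) : ℤ := M * t.2.2.1
/-- `b` -/
def pb (M : ℕ) (t : ℕ × ℕ × ℕ × ℕ) : ℤ := M * t.2.2.2
/-- `c` -/
def pc (M : ℕ) (t : ℕ × ℕ × ℕ × ℕ) : ℤ := cc (pk M t) (pa M t) (pb M t)
/-- `A` -/
def tA (M : ℕ) (t : ℕ × ℕ × ℕ × ℕ) : ℤ := AA (pk M t) (pl M t) (pa M t) (pb M t)
/-- `B` -/
def tB (M : ℕ) (t : ℕ × ℕ × ℕ × ℕ) : ℤ := BB (pk M t) (pl M t) (pa M t) (pb M t)

/-- the bound for the abscissas -/
def RR (M n : ℕ) : ℤ := 40 * (M : ℤ) ^ 2 * (n : ℤ) ^ 2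

/-- good parameters in the box -/
def GoodT (M n : ℕ) (t : ℕ × ℕ × ℕ × ℕ) : Prop :=
  Good (RR M n) (pk M t) (pl M t) (pa M t) (pb M t)

/-- the minimal pairs of height at most `H` -/
def EH (H : ℝ) : Set (ℤ × ℤ) := {p | 4 * p.1 ^ 3 + 27 * p.2 ^ 2 ≠ 0 ∧
  (∀ q : ℕ, q.Prime → ¬ ((q : ℤ) ^ 4 ∣ p.1 ∧ (q : ℤ) ^ 6 ∣ p.2)) ∧
  4 * |(p.1 : ℝ)| ^ 3 ≤ H ∧ 27 * (p.2 : ℝ) ^ 2 ≤ H}

theorem mem_Bx {n : ℕ} {t : ℕ × ℕ × ℕ × ℕ} : t ∈ Bx n ↔
    (1 ≤ t.1 ∧ t.1 ≤ n) ∧ (1 ≤ t.2.1 ∧ t.2.1 ≤ n ^ 3) ∧ (1 ≤ t.2.2.1 ∧ t.2.2.1 ≤ n ^ 2) ∧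
      (1 ≤ t.2.2.2 ∧ t.2.2.2 ≤ n ^ 2) := by
  simp [Bx, Finset.mem_product]

theorem card_Bx (n : ℕ) : (Bx n).card = n ^ 8 := by
  simp only [Bx, Finset.card_product, Nat.card_Icc, Nat.add_sub_cancel]
  ring

end Pool.Agent.H96.RT
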