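import Pool.Agent.H96.RT.Defs

/-!
# [H96 RT DEN] The number of curves of height at most `H`

Statements to prove (keep them): `EH_finite`, `card_EH`.

PROOF. `EH H ⊆ {(A,B) : |A| ≤ (H/4)^(1/3), |B| ≤ (H/27)^(1/2)}`, contained in the finite set
`Icc (-⌊H^(1/3)⌋) ⌊H^(1/3)⌋ ×ˢ Icc (-⌊H^(1/2)⌋) ⌊H^(1/2)⌋`, of cardinality at most
`(2 H^(1/3) + 1)(2 H^(1/2) + 1) ≤ 9 H^(5/6)` for `H ≥ 1`.
-/

set_option autoImplicit false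

namespace Pool.Agent.H96.RT

private theorem den_sub (H : ℝ) : EH H ⊆
    ↑((Finset.Icc (-(⌊H ^ (1 / 3 : ℝ)⌋₊ : ℤ)) ⌊H ^ (1 / 3 : ℝ)⌋₊) ×ˢ
      (Finset.Icc (-(⌊H ^ (1 / 2 : ℝ)⌋₊ : ℤ)) ⌊H ^ (1 / 2 : ℝ)⌋₊)) := by
  rintro ⟨A, B⟩ ⟨-, -, h1, h2⟩
  simp only at h1 h2
  have hH : 0 ≤ H := le_trans (by positivity) h1
  have hA : |(A : ℝ)| ≤ H ^ (1 / 3 : ℝ) := by
    have h3 : |(A : ℝ)| ^ 3 ≤ H := by
      have := pow_nonneg (abs_nonneg (A : ℝ)) 3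
      linarith
    calc |(A : ℝ)| = (|(A : ℝ)| ^ 3) ^ (1 / 3 : ℝ) := by
          rw [← Real.rpow_natCast, ← Real.rpow_mul (abs_nonneg _)]
          norm_num
      _ ≤ H ^ (1 / 3 : ℝ) := Real.rpow_le_rpow (by positivity) h3 (by norm_num)
  have hB : |(B : ℝ)| ≤ H ^ (1 / 2 : ℝ) := by
    have h3 : |(B : ℝ)| ^ 2 ≤ H := by
      have := pow_nonneg (abs_nonneg (B : ℝ)) 2
      rw [sq_abs] at this ⊢
      linarith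
    calc |(B : ℝ)| = (|(B : ℝ)| ^ 2) ^ (1 / 2 : ℝ) := by
          rw [← Real.rpow_natCast, ← Real.rpow_mul (abs_nonneg _)]
          norm_num
      _ ≤ H ^ (1 / 2 : ℝ) := Real.rpow_le_rpow (by positivity) h3 (by norm_num)
  have hA' : A.natAbs ≤ ⌊H ^ (1 / 3 : ℝ)⌋₊ :=
    Nat.le_floor (by rw [Nat.cast_natAbs, Int.cast_abs]; exact hA)
  have hB' : B.natAbs ≤ ⌊H ^ (1 / 2 : ℝ)⌋₊ :=
    Nat.le_floor (by rw [Nat.cast_natAbs, Int.cast_abs]; exact hB)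
  rw [Finset.mem_coe, Finset.mem_product, Finset.mem_Icc, Finset.mem_Icc]
  simp only
  omega

theorem EH_finite (H : ℝ) : (EH H).Finite :=
  (Finset.finite_toSet _).subset (den_sub H)

theorem card_EH (H : ℝ) (hH : 1 ≤ H) : ((EH H).ncard : ℝ) ≤ 9 * H ^ (5 / 6 : ℝ) := by
  have h1 := Set.ncard_le_ncard (den_sub H) (Finset.finite_toSet _)
  rw [Set.ncard_coe_finset, Finset.card_product, Int.card_Icc, Int.card_Icc] at h1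
  have hH0 : 0 ≤ H := by linarith
  have h2 : ((EH H).ncard : ℝ) ≤ (2 * (⌊H ^ (1 / 3 : ℝ)⌋₊ : ℝ) + 1) *
      (2 * (⌊H ^ (1 / 2 : ℝ)⌋₊ : ℝ) + 1) := by
    have e1 : ((⌊H ^ (1 / 3 : ℝ)⌋₊ : ℤ) + 1 - -(⌊H ^ (1 / 3 : ℝ)⌋₊ : ℤ)).toNat =
        2 * ⌊H ^ (1 / 3 : ℝ)⌋₊ + 1 := by omega
    have e2 : ((⌊H ^ (1 / 2 : ℝ)⌋₊ : ℤ) + 1 - -(⌊H ^ (1 / 2 : ℝ)⌋₊ : ℤ)).toNat =
        2 * ⌊H ^ (1 / 2 : ℝ)⌋₊ + 1 := by omega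
    rw [e1, e2] at h1
    exact_mod_cast h1
  have f1 : (⌊H ^ (1 / 3 : ℝ)⌋₊ : ℝ) ≤ H ^ (1 / 3 : ℝ) := Nat.floor_le (by positivity)
  have f2 : (⌊H ^ (1 / 2 : ℝ)⌋₊ : ℝ) ≤ H ^ (1 / 2 : ℝ) := Nat.floor_le (by positivity)
  have g1 : 1 ≤ H ^ (1 / 3 : ℝ) := Real.one_le_rpow hH (by norm_num)
  have g2 : 1 ≤ H ^ (1 / 2 : ℝ) := Real.one_le_rpow hH (by norm_num)
  calc ((EH H).ncard : ℝ) ≤ (2 * (⌊H ^ (1 / 3 : ℝ)⌋₊ : ℝ) + 1) *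
        (2 * (⌊H ^ (1 / 2 : ℝ)⌋₊ : ℝ) + 1) := h2
    _ ≤ (3 * H ^ (1 / 3 : ℝ)) * (3 * H ^ (1 / 2 : ℝ)) := by
        apply mul_le_mul _ _ (by positivity) (by positivity) <;> linarith
    _ = 9 * (H ^ (1 / 3 : ℝ) * H ^ (1 / 2 : ℝ)) := by ring
    _ = 9 * H ^ (5 / 6 : ℝ) := by
        rw [← Real.rpow_add (by linarith)]
        norm_num

end Pool.Agent.H96.RT
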