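import Pool.Agent.H96.RT.Siz

/-!
# [H96 RT FIB] At most 36 good parameters give the same curve

Statement to prove (keep it): `fib`.

PROOF. `Finset.card_le_mul_card_image` with the bound 36 for the fibres: let `t0` be an element of the fibre (if the fibre is
empty there is nothing to prove), `(k,l,a,b)` its parameters, `c = pc M t0`. For `t` in the fibre with parameters `(k1,l1,a1,b1)`:
`A`, `B` are the same, so `(k1 x + l1)^2 = x^3 + A x + B` for `x = a1` and `x = b1` (`key_id`), and
`|a1|, |b1| ≤ RR M n` (`siz`), so `a1, b1 ∈ {a, b, c}` (`Good.pts` of `t0`); hence `(k1 x + l1)^2 = (k x + l)^2`, i.e.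
`k1 x + l1 = ε (k x + l)` for `x = a1` and for `x = b1`, with signs `ε1`, `ε2`. As `a1 ≠ b1` the data
`(a1, b1, ε1, ε2) ∈ {a,b,c}^2 × {1,-1}^2` determine `k1`, `l1`, hence `t` (`M ≥ 1`). So the fibre injects into a set of
`3 * 3 * 2 * 2` elements (e.g. `Finset.card_le_card_of_injOn` with
`t ↦ (pa M t, pb M t, pk M t * pa M t + pl M t, pk M t * pb M t + pl M t)` into
`{a,b,c} ×ˢ {a,b,c} ×ˢ ..`: note that the third component is `± (k x + l)` for `x = a1`; take the pairs
`(x, ε (k x + l))`, at most 6 of them).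
-/

set_option autoImplicit false

namespace Pool.Agent.H96.RT

open Finset

/-- the six values -/
private def fib_T (k l a b c : ℤ) : Finset (ℤ × ℤ) :=
  {(a, k * a + l), (a, -(k * a + l)), (b, k * b + l), (b, -(k * b + l)), (c, k * c + l),
    (c, -(k * c + l))}

private theorem fib_T_card (k l a b c : ℤ) : (fib_T k l a b c).card ≤ 6 := by
  unfold fib_T
  exact Finset.card_le_six

private theorem fib_T_mem {k l a b c x y : ℤ} (hx : x = a ∨ x = b ∨ x = c)
    (hy : y ^ 2 = (k * x + l) ^ 2) : (x, y) ∈ fib_T k l a b c := by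
  rcases sq_eq_sq_iff_eq_or_eq_neg.1 hy with h | h <;> rcases hx with hx | hx | hx <;>
    subst hx <;> subst h <;> simp [fib_T]

theorem fib {M n : ℕ} (hM : 1 ≤ M) (hn : 1 ≤ n) (S : Finset (ℕ × ℕ × ℕ × ℕ)) (hS : S ⊆ Bx n)
    (hg : ∀ t ∈ S, GoodT M n t) : S.card ≤ 36 * (S.image (fun t => (tA M t, tB M t))).card := by
  apply Finset.card_le_mul_card_image
  intro v hv
  obtain ⟨t0, ht0, h0⟩ := Finset.mem_image.1 hv
  have hM0 : (M : ℤ) ≠ 0 := by
    have : (1 : ℤ) ≤ M := by exact_mod_cast hM
    omega
  have hcan : ∀ x y : ℕ, (M : ℤ) * x = M * y → x = y := by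
    intro x y hxy
    exact_mod_cast mul_left_cancel₀ hM0 hxy
  set T := fib_T (pk M t0) (pl M t0) (pa M t0) (pb M t0) (pc M t0) with hT
  have hTT : (T ×ˢ T).card ≤ 36 := by
    rw [Finset.card_product]
    have := fib_T_card (pk M t0) (pl M t0) (pa M t0) (pb M t0) (pc M t0)
    calc _ ≤ 6 * 6 := Nat.mul_le_mul this this
      _ = 36 := by norm_num
  refine le_trans ?_ hTT
  apply Finset.card_le_card_of_injOn (fun t => ((pa M t, pk M t * pa M t + pl M t),
    (pb M t, pk M t * pb M t + pl M t)))
  · intro t ht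
    rw [Finset.mem_coe, Finset.mem_filter] at ht
    obtain ⟨ht, he⟩ := ht
    rw [← h0, Prod.mk.injEq] at he
    have hs := siz hM hn (hS ht)
    have hG := hg t0 ht0
    have key : ∀ x : ℤ, |x| ≤ RR M n → (x - pa M t) * (x - pb M t) * (x - pc M t) = 0 →
        (x, pk M t * x + pl M t) ∈ T := by
      intro x hx hz
      have h1 := key_id (pk M t) (pl M t) (pa M t) (pb M t) x
      have h2 : (pk M t * x + pl M t) ^ 2 = x ^ 3 + tA M t * x + tB M t := by
        change x ^ 3 + tA M t * x + tB M t = (pk M t * x + pl M t) ^ 2 +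
          (x - pa M t) * (x - pb M t) * (x - pc M t) at h1
        rw [hz] at h1
        rw [h1]; ring
      rw [he.1, he.2] at h2
      have h3 := hG.pts x (pk M t * x + pl M t) hx h2
      apply fib_T_mem h3
      have h4 := key_id (pk M t0) (pl M t0) (pa M t0) (pb M t0) x
      change x ^ 3 + tA M t0 * x + tB M t0 = (pk M t0 * x + pl M t0) ^ 2 +
          (x - pa M t0) * (x - pb M t0) * (x - pc M t0) at h4
      rw [h2, h4]
      have h5 : (x - pa M t0) * (x - pb M t0) * (x - pc M t0) = 0 := by
        rcases h3 with h | h | h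
        · rw [h]; ring
        · rw [h]; ring
        · rw [h]
          change (pc M t0 - pa M t0) * (pc M t0 - pb M t0) * (pc M t0 - pc M t0) = 0
          ring
      rw [h5, add_zero]
    rw [Finset.mem_coe, Finset.mem_product]
    exact ⟨key _ hs.ha (by ring), key _ hs.hb (by ring)⟩
  · intro t ht s hs hts
    rw [Finset.mem_coe, Finset.mem_filter] at ht hs
    simp only [Prod.mk.injEq] at hts
    obtain ⟨⟨e1, e2⟩, e3, e4⟩ := hts
    have hG := hg t ht.1
    rw [← e1] at e2
    rw [← e3] at e4
    have h1 : (pk M t - pk M s) * (pa M t - pb M t) = 0 := by linear_combination e2 - e4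
    have h2 : pk M t = pk M s := by
      rcases mul_eq_zero.1 h1 with h | h
      · linarith
      · exact absurd (sub_eq_zero.1 h) hG.hab
    have h3 : pl M t = pl M s := by
      rw [h2] at e2
      linarith
    ext
    · exact hcan _ _ h2
    · apply hcan
      simp only [pl] at h3
      linarith
    · exact hcan _ _ e1
    · exact hcan _ _ e3

end Pool.Agent.H96.RT
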