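import Pool.Agent.H96.RT.Asm
import Pool.Agent.H96.RT.Fib
import Pool.Agent.H96.RT.Den

/-!
# [H96 RT FIN] Conclusion

Statements to prove (keep them): `count_two`, `rate`.

* `count_two`: `M = 200!` (do not evaluate it: generalise to `M ≥ 1` with `∀ q prime, q ≤ 200 → q ∣ M`,
  `Nat.Prime.dvd_factorial`). Let `K = 10000 M^9`, `n = ⌊(H/K)^(1/12)⌋`, so `K n^12 ≤ H` and `n ≥ (H/K)^(1/12)/2 ≥ n0` for `H`
  large. Let `S` be the set of `asm`, `|S| ≥ n^8/2`. By `fib` the image `T` of `S` under `(tA, tB)` has at least `n^8/72`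
  elements. Each element of `T` is in the set: discriminant `disc_ne`, minimality (`Mnl`), height
  `4 |A|^3 ≤ 4 (11 M^3 n^4)^3 ≤ K n^12 ≤ H`, `27 B^2 ≤ 27 (7 M^4 n^6)^2 ≤ K n^12 ≤ H`, rank by `rnk` with `siz`.
  `Set.ncard_le_ncard` (finite by `EH_finite`), `n^8/72 ≥ c H^(2/3)`.
* `rate`: the three sets (rank `0`, rank `1`, rank `≥ 2`) are disjoint subsets of the finite set `EH H`, so
  `#0 + #1 + c H^(2/3) ≤ #EH`, and `#EH ≤ 9 H^(5/6)`, `#EH > 0` by `count_two`. Divide.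
-/

set_option autoImplicit false

namespace Pool.Agent.H96.RT

private theorem fin_mem {M n : ℕ} (hM : 1 ≤ M) (hn : 1 ≤ n) {t : ℕ × ℕ × ℕ × ℕ} (ht : t ∈ Bx n)
    (hg : GoodT M n t) (hm : Mnl (tA M t) (tB M t)) {H : ℝ}
    (hH : 10000 * (M : ℝ) ^ 9 * (n : ℝ) ^ 12 ≤ H) :
    (tA M t, tB M t) ∈ EH H ∧ 2 ≤ Module.rank ℤ (EC (tA M t) (tB M t)).Point := by
  have hs := siz hM hn ht
  have hMr : (1 : ℝ) ≤ M := by exact_mod_cast hM
  have hnr : (1 : ℝ) ≤ n := by exact_mod_cast hn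
  refine ⟨⟨disc_ne hg hs, hm, ?_, ?_⟩, rnk hg hs⟩
  · have h1 : |((tA M t : ℤ) : ℝ)| ≤ 11 * (M : ℝ) ^ 3 * (n : ℝ) ^ 4 := by
      have := abs_A hM hn ht
      exact_mod_cast this
    calc 4 * |((tA M t : ℤ) : ℝ)| ^ 3 ≤ 4 * (11 * (M : ℝ) ^ 3 * (n : ℝ) ^ 4) ^ 3 := by gcongr
      _ = 5324 * (M : ℝ) ^ 9 * (n : ℝ) ^ 12 := by ring
      _ ≤ 10000 * (M : ℝ) ^ 9 * (n : ℝ) ^ 12 := by gcongr; norm_num
      _ ≤ H := hH
  · have h1 : |((tB M t : ℤ) : ℝ)| ≤ 7 * (M : ℝ) ^ 4 * (n : ℝ) ^ 6 := by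
      have := abs_B hM hn ht
      exact_mod_cast this
    calc 27 * ((tB M t : ℤ) : ℝ) ^ 2 = 27 * |((tB M t : ℤ) : ℝ)| ^ 2 := by rw [sq_abs]
      _ ≤ 27 * (7 * (M : ℝ) ^ 4 * (n : ℝ) ^ 6) ^ 2 := by gcongr
      _ = 1323 * (M : ℝ) ^ 8 * (n : ℝ) ^ 12 := by ring
      _ ≤ 10000 * (M : ℝ) ^ 9 * (n : ℝ) ^ 12 := by
          gcongr
          · norm_num
          · norm_num
      _ ≤ H := hH

private theorem fin_aux (M : ℕ) (hM : 1 ≤ M) (h200 : ∀ q : ℕ, q.Prime → q ≤ 200 → q ∣ M) :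
    ∃ c H0 : ℝ, 0 < c ∧ 1 ≤ H0 ∧ ∀ H : ℝ, H0 ≤ H →
    c * H ^ (2 / 3 : ℝ) ≤
      (({p : ℤ × ℤ | p ∈ EH H ∧ 2 ≤ Module.rank ℤ (EC p.1 p.2).Point}.ncard : ℕ) : ℝ) := by
  classical
  obtain ⟨n0, hn0, hasm⟩ := asm M hM h200
  set K : ℝ := 10000 * (M : ℝ) ^ 9 with hK
  have hMr : (1 : ℝ) ≤ M := by exact_mod_cast hM
  have hK1 : 1 ≤ K := by
    have := one_le_pow₀ (n := 9) hMr
    rw [hK]
    linarith
  have hKpos : 0 < K := by linarith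
  have hn0r : (1 : ℝ) ≤ n0 := by exact_mod_cast hn0
  refine ⟨1 / (18432 * K ^ (2 / 3 : ℝ)), K * ((n0 : ℝ) + 1) ^ 12, by positivity, ?_, ?_⟩
  · have := one_le_pow₀ (n := 12) (by linarith : (1 : ℝ) ≤ (n0 : ℝ) + 1)
    nlinarith
  intro H hH
  have hHK : ((n0 : ℝ) + 1) ^ 12 ≤ H / K := by
    rw [le_div_iff₀ hKpos]
    linarith
  have hHpos : 0 < H := lt_of_lt_of_le (by positivity) hH
  set y : ℝ := (H / K) ^ (1 / 12 : ℝ) with hy
  have hy0 : 0 ≤ y := by positivity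
  have hy12 : y ^ 12 = H / K := by
    rw [hy, ← Real.rpow_natCast, ← Real.rpow_mul (by positivity)]
    norm_num
  have hy8 : y ^ 8 = (H / K) ^ (2 / 3 : ℝ) := by
    rw [hy, ← Real.rpow_natCast, ← Real.rpow_mul (by positivity)]
    norm_num
  have hyn : (n0 : ℝ) + 1 ≤ y := by
    by_contra hlt
    rw [not_le] at hlt
    have := pow_lt_pow_left₀ hlt hy0 (n := 12) (by norm_num)
    linarith
  set n : ℕ := ⌊y⌋₊ with hn
  have hn1 : (n : ℝ) ≤ y := Nat.floor_le hy0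
  have hn2 : y < n + 1 := Nat.lt_floor_add_one y
  have hnn0 : n0 ≤ n := Nat.le_floor (by linarith)
  have hn3 : y / 2 ≤ n := by linarith
  have hn4 : 1 ≤ n := hn0.trans hnn0
  have hKn : 10000 * (M : ℝ) ^ 9 * (n : ℝ) ^ 12 ≤ H := by
    rw [← hK]
    calc K * (n : ℝ) ^ 12 ≤ K * y ^ 12 := by gcongr
      _ = H := by rw [hy12]; field_simp
  have hcard := hasm n hnn0
  set S := (Bx n).filter (fun t => GoodT M n t ∧ Mnl (tA M t) (tB M t)) with hS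
  have hfib := fib hM hn4 S (Finset.filter_subset _ _)
    (fun t ht => (Finset.mem_filter.1 ht).2.1)
  have hsub : ((S.image (fun t => (tA M t, tB M t)) : Finset (ℤ × ℤ)) : Set (ℤ × ℤ)) ⊆
      {p : ℤ × ℤ | p ∈ EH H ∧ 2 ≤ Module.rank ℤ (EC p.1 p.2).Point} := by
    intro p hp
    rw [Finset.mem_coe, Finset.mem_image] at hp
    obtain ⟨t, ht, rfl⟩ := hp
    rw [hS, Finset.mem_filter] at ht
    exact fin_mem hM hn4 ht.1 ht.2.1 ht.2.2 hKn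
  have hfin : ({p : ℤ × ℤ | p ∈ EH H ∧ 2 ≤ Module.rank ℤ (EC p.1 p.2).Point}).Finite :=
    (EH_finite H).subset fun p hp => hp.1
  have hle := Set.ncard_le_ncard hsub hfin
  rw [Set.ncard_coe_finset] at hle
  have hfib' : (S.card : ℝ) ≤ 36 * ((S.image (fun t => (tA M t, tB M t))).card : ℝ) := by
    exact_mod_cast hfib
  have hle' : ((S.image (fun t => (tA M t, tB M t))).card : ℝ) ≤
      (({p : ℤ × ℤ | p ∈ EH H ∧ 2 ≤ Module.rank ℤ (EC p.1 p.2).Point}.ncard : ℕ) : ℝ) := by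
    exact_mod_cast hle
  have h8 : y ^ 8 / 256 ≤ (n : ℝ) ^ 8 := by
    calc y ^ 8 / 256 = (y / 2) ^ 8 := by ring
      _ ≤ (n : ℝ) ^ 8 := by gcongr
  calc 1 / (18432 * K ^ (2 / 3 : ℝ)) * H ^ (2 / 3 : ℝ) = (H / K) ^ (2 / 3 : ℝ) / 18432 := by
        rw [Real.div_rpow hHpos.le hKpos.le]
        field_simp
    _ = y ^ 8 / 256 / 72 := by rw [hy8]; ring
    _ ≤ (n : ℝ) ^ 8 / 72 := by gcongr
    _ ≤ _ := by linarith

theorem count_two : ∃ c H0 : ℝ, 0 < c ∧ 1 ≤ H0 ∧ ∀ H : ℝ, H0 ≤ H →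
    c * H ^ (2 / 3 : ℝ) ≤
      (({p : ℤ × ℤ | p ∈ EH H ∧ 2 ≤ Module.rank ℤ (EC p.1 p.2).Point}.ncard : ℕ) : ℝ) :=
  fin_aux (Nat.factorial 200) (Nat.factorial_pos 200)
    fun _ hq hq2 => (hq.dvd_factorial).2 hq2

theorem rate : ∃ c H0 : ℝ, 0 < c ∧ 1 ≤ H0 ∧ ∀ H : ℝ, H0 ≤ H →
    (({p : ℤ × ℤ | p ∈ EH H ∧ Module.rank ℤ (EC p.1 p.2).Point = 0}.ncard : ℕ) : ℝ) /
        ((EH H).ncard : ℝ) +
      (({p : ℤ × ℤ | p ∈ EH H ∧ Module.rank ℤ (EC p.1 p.2).Point = 1}.ncard : ℕ) : ℝ) /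
        ((EH H).ncard : ℝ) ≤ 1 - c * H ^ (-(1 / 6) : ℝ) := by
  obtain ⟨c, H0, hc, hH0, h⟩ := count_two
  refine ⟨c / 9, H0, by positivity, hH0, fun H hH => ?_⟩
  have hH1 : 1 ≤ H := hH0.trans hH
  have hHpos : 0 < H := by linarith
  have h2 := h H hH
  set S0 := {p : ℤ × ℤ | p ∈ EH H ∧ Module.rank ℤ (EC p.1 p.2).Point = 0} with hS0
  set S1 := {p : ℤ × ℤ | p ∈ EH H ∧ Module.rank ℤ (EC p.1 p.2).Point = 1} with hS1
  set S2 := {p : ℤ × ℤ | p ∈ EH H ∧ 2 ≤ Module.rank ℤ (EC p.1 p.2).Point} with hS2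
  have f0 : S0.Finite := (EH_finite H).subset fun p hp => hp.1
  have f1 : S1.Finite := (EH_finite H).subset fun p hp => hp.1
  have f2 : S2.Finite := (EH_finite H).subset fun p hp => hp.1
  have d01 : Disjoint S0 S1 := by
    rw [Set.disjoint_left]
    rintro p ⟨-, h1⟩ ⟨-, h2⟩
    rw [h1] at h2
    exact zero_ne_one h2
  have d2 : Disjoint (S0 ∪ S1) S2 := by
    rw [Set.disjoint_left]
    rintro p hp ⟨-, h3⟩
    have h12 : (1 : Cardinal) < 2 := by exact_mod_cast (by norm_num : (1 : ℕ) < 2)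
    rcases hp with ⟨-, h1⟩ | ⟨-, h1⟩
    · rw [h1] at h3
      exact absurd (h3.trans (zero_le_one)) (not_le.2 h12)
    · rw [h1] at h3
      exact absurd h3 (not_le.2 h12)
  have hcard : S0.ncard + S1.ncard + S2.ncard ≤ (EH H).ncard := by
    rw [← Set.ncard_union_eq d01 f0 f1, ← Set.ncard_union_eq d2 (f0.union f1) f2]
    refine Set.ncard_le_ncard ?_ (EH_finite H)
    rintro p ((hp | hp) | hp)
    · exact hp.1
    · exact hp.1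
    · exact hp.1
  have hcard' : (S0.ncard : ℝ) + S1.ncard + S2.ncard ≤ (EH H).ncard := by exact_mod_cast hcard
  have hE := card_EH H hH1
  have hp23 : 0 < c * H ^ (2 / 3 : ℝ) := by positivity
  have hEpos : (0 : ℝ) < (EH H).ncard := by
    have : (0 : ℝ) ≤ S0.ncard := Nat.cast_nonneg _
    have : (0 : ℝ) ≤ S1.ncard := Nat.cast_nonneg _
    linarith
  rw [← add_div, div_le_iff₀ hEpos]
  have hkey : c / 9 * H ^ (-(1 / 6) : ℝ) * (EH H).ncard ≤ c * H ^ (2 / 3 : ℝ) := by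
    calc c / 9 * H ^ (-(1 / 6) : ℝ) * (EH H).ncard
        ≤ c / 9 * H ^ (-(1 / 6) : ℝ) * (9 * H ^ (5 / 6 : ℝ)) := by gcongr
      _ = c * (H ^ (-(1 / 6) : ℝ) * H ^ (5 / 6 : ℝ)) := by ring
      _ = c * H ^ (2 / 3 : ℝ) := by
          rw [← Real.rpow_add hHpos]
          norm_num
  linarith

end Pool.Agent.H96.RT
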