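import Pool.Agent.H96.RT.Defs

/-!
# [H96 RT PTS] The group law on `y^2 = x^3 + A x + B`

Statements to prove (keep them): `ns_eq`, `ns_of`, `two_tors`, `dbl_eq`, `line_add`.

The curve is `⟨0, 0, 0, A, B⟩` over `ℚ`; `WeierstrassCurve.Affine.nonsingular_iff'`, `equation_iff`, `negY x y = -y`,
Mathlib file `EllipticCurve/Affine/Point.lean`, `Formula.lean` (`slope_of_X_ne`, `slope_of_Y_ne`, `addX`, `addY`, `negAddY`).

* `ns_eq`: the equation (`nonsingular_iff'`, `equation_iff'`). `ns_of`: the partial derivative `2 y` is not zero.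
* `two_tors`: `Q = some u v h`, `Q + Q = 0`. If `v = 0` the equation gives `u^3 + A u + B = 0`. If `v ≠ 0` then `v ≠ negY u v`
  and `add_self_of_Y_ne` gives `Q + Q = some ..`, not zero (`some_ne_zero`).
* `dbl_eq`: `Q + Q = some x y h`, so `Q ≠ 0`, `Q = some u v h'`, `v ≠ 0` (otherwise `Q + Q = 0` by `add_self_of_Y_eq`), and
  `x = addX u u (slope u u v v) = s^2 - 2u`, `s = (3 u^2 + A)/(2 v)` (`slope_of_Y_ne`). Multiply by `4 v^2`.
* `line_add`: `add_of_X_ne`, slope `= ((k a + l) - (k b + l))/(a - b) = k`, `addX = k^2 - a - b = c`,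
  `addY = -(k (c - a) + (k a + l)) = -(k c + l)`; both sides are `some` of the same coordinates (`neg_some`,
  `Point.some.injEq`).
-/

set_option autoImplicit false

namespace Pool.Agent.H96.RT

open WeierstrassCurve.Affine

variable {A B : ℤ}

private theorem pts_eqn {x y : ℚ} :
    (EC A B).Equation x y ↔ y ^ 2 = x ^ 3 + A * x + B := by
  rw [equation_iff]
  show y ^ 2 + 0 * x * y + 0 * y = x ^ 3 + 0 * x ^ 2 + (A : ℚ) * x + (B : ℚ) ↔ _
  constructor <;> intro h <;> linear_combination h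

private theorem pts_negY (x y : ℚ) : (EC A B).negY x y = -y := by
  show -y - 0 * x - 0 = -y
  ring

private theorem pts_addX (x₁ x₂ s : ℚ) : (EC A B).addX x₁ x₂ s = s ^ 2 - x₁ - x₂ := by
  show s ^ 2 + 0 * s - 0 - x₁ - x₂ = _
  ring

private theorem pts_addY (x₁ x₂ y₁ s : ℚ) :
    (EC A B).addY x₁ x₂ y₁ s = -(s * ((s ^ 2 - x₁ - x₂) - x₁) + y₁) := by
  show (EC A B).negY ((EC A B).addX x₁ x₂ s) ((EC A B).negAddY x₁ x₂ y₁ s) = _
  rw [pts_negY]
  show -(s * ((EC A B).addX x₁ x₂ s - x₁) + y₁) = _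
  rw [pts_addX]

theorem ns_eq {x y : ℚ} (h : (EC A B).Nonsingular x y) : y ^ 2 = x ^ 3 + A * x + B := by
  rw [nonsingular_iff'] at h
  exact pts_eqn.mp h.1

theorem ns_of {x y : ℚ} (h : y ^ 2 = x ^ 3 + A * x + B) (hy : y ≠ 0) :
    (EC A B).Nonsingular x y := by
  rw [nonsingular_iff']
  refine ⟨pts_eqn.mpr h, Or.inr ?_⟩
  show 2 * y + 0 * x + 0 ≠ 0
  intro h0
  apply hy
  linarith

theorem two_tors (Q : (EC A B).Point) (h : Q + Q = 0) :
    Q = 0 ∨ ∃ x : ℚ, x ^ 3 + A * x + B = 0 := by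
  rcases Q with _ | ⟨u, v, hQ⟩
  · exact Or.inl rfl
  · right
    by_cases hv : v = 0
    · refine ⟨u, ?_⟩
      have h1 := ns_eq hQ
      rw [hv] at h1
      linear_combination -h1
    · exfalso
      have hne : v ≠ (EC A B).negY u v := by
        rw [pts_negY]
        intro h0
        apply hv
        linarith
      rw [Point.add_self_of_Y_ne hne] at h
      exact Point.some_ne_zero _ h

theorem dbl_eq (Q : (EC A B).Point) {x y : ℚ} {h : (EC A B).Nonsingular x y}
    (hQ : Q + Q = Point.some x y h) :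
    ∃ u v : ℚ, v ^ 2 = u ^ 3 + A * u + B ∧ (3 * u ^ 2 + A) ^ 2 = 4 * v ^ 2 * (x + 2 * u) := by
  rcases Q with _ | ⟨u, v, hQ'⟩
  · exfalso
    have h1 : (Point.zero : (EC A B).Point) = 0 := rfl
    rw [h1, add_zero] at hQ
    exact Point.some_ne_zero h hQ.symm
  · refine ⟨u, v, ns_eq hQ', ?_⟩
    by_cases hv : v = 0
    · exfalso
      have h1 : v = (EC A B).negY u v := by
        rw [pts_negY, hv, neg_zero]
      rw [Point.add_self_of_Y_eq h1] at hQ
      exact Point.some_ne_zero h hQ.symm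
    · have hne : v ≠ (EC A B).negY u v := by
        rw [pts_negY]
        intro h0
        apply hv
        linarith
      rw [Point.add_self_of_Y_ne hne, Point.some.injEq] at hQ
      obtain ⟨hx, -⟩ := hQ
      rw [pts_addX, slope_of_Y_ne rfl hne, pts_negY] at hx
      have h2 : ((3 * u ^ 2 + 2 * (EC A B).a₂ * u + (EC A B).a₄ - (EC A B).a₁ * v) / (v - -v)) =
          (3 * u ^ 2 + A) / (2 * v) := by
        show (3 * u ^ 2 + 2 * 0 * u + (A : ℚ) - 0 * v) / (v - -v) = _
        congr 1 <;> ring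
      rw [h2] at hx
      rw [← hx]
      field_simp
      ring

theorem line_add {k l a b : ℤ} (hab : a ≠ b)
    (ha : (EC (AA k l a b) (BB k l a b)).Nonsingular (a : ℚ) ((k : ℚ) * a + l))
    (hb : (EC (AA k l a b) (BB k l a b)).Nonsingular (b : ℚ) ((k : ℚ) * b + l))
    (hc : (EC (AA k l a b) (BB k l a b)).Nonsingular ((cc k a b : ℤ) : ℚ)
      ((k : ℚ) * (cc k a b : ℤ) + l)) :
    Point.some _ _ ha + Point.some _ _ hb = -Point.some _ _ hc := by
  have hab' : (a : ℚ) ≠ b := by exact_mod_cast hab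
  have hs : (EC (AA k l a b) (BB k l a b)).slope (a : ℚ) b ((k : ℚ) * a + l) ((k : ℚ) * b + l) = k := by
    rw [slope_of_X_ne hab']
    have h0 : (a : ℚ) - b ≠ 0 := sub_ne_zero.mpr hab'
    rw [div_eq_iff h0]
    ring
  rw [Point.add_of_X_ne hab', Point.neg_some, Point.some.injEq]
  refine ⟨?_, ?_⟩
  · rw [hs, pts_addX]
    unfold cc
    push_cast
    ring
  · rw [hs, pts_addY, pts_negY]
    unfold cc
    push_cast
    ring

end Pool.Agent.H96.RT
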